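import Pool.Agent.K7.H50.TD.Prim
import Pool.Agent.Helper344.DPRM

set_option autoImplicit false

namespace Pool.Agent.K7.H50.TD
open Function Encodable

/-! ## Facts about models of `Q` -/

section
variable {M : Model} (h : IsEA M)
include h

theorem num_add (m n : ℕ) : M.add (M.num m) (M.num n) = M.num (m + n) := by
  induction n with
  | zero => exact h.add_zero _
  | succ n ih =>
    show M.add (M.num m) (M.succ (M.num n)) = M.succ (M.num (m + n))
    rw [h.add_succ, ih]

theorem num_mul (m n : ℕ) : M.mul (M.num m) (M.num n) = M.num (m * n) := by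
  induction n with
  | zero => exact h.mul_zero _
  | succ n ih =>
    show M.mul (M.num m) (M.succ (M.num n)) = _
    rw [h.mul_succ, ih, num_add h, Nat.mul_succ]

theorem num_exp (n : ℕ) : M.exp (M.num n) = M.num (2 ^ n) := by
  induction n with
  | zero => exact h.exp_zero
  | succ n ih =>
    show M.exp (M.succ (M.num n)) = _
    rw [h.exp_succ, ih, num_add h, pow_succ, mul_two]

theorem num_inj : ∀ m n : ℕ, M.num m = M.num n → m = n
  | 0, 0, _ => rfl
  | 0, n + 1, e => absurd e.symm (h.succ_ne_zero _)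
  | m + 1, 0, e => absurd e (h.succ_ne_zero _)
  | m + 1, n + 1, e => congrArg _ (num_inj m n (h.succ_inj _ _ e))

theorem of_add_num : ∀ (n : ℕ) (x z : M.D), M.add z x = M.num n → ∃ k ≤ n, x = M.num k
  | n, x, z, e => by
    rcases h.zero_or_succ x with rfl | ⟨y, rfl⟩
    · exact ⟨0, Nat.zero_le _, rfl⟩
    · rw [h.add_succ] at e
      match n, e with
      | 0, e => exact absurd e (h.succ_ne_zero _)
      | n + 1, e =>
        obtain ⟨k, hk, rfl⟩ := of_add_num n y z (h.succ_inj _ _ e)
        exact ⟨k + 1, by omega, rfl⟩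

theorem le_num (x : M.D) (n : ℕ) (hx : M.le x (M.num n)) : ∃ k ≤ n, x = M.num k := by
  obtain ⟨z, hz⟩ := (h.le_iff _ _).1 hx
  exact of_add_num h n x z hz

theorem le_total : ∀ (n : ℕ) (x : M.D), M.le x (M.num n) ∨ M.le (M.num n) x
  | 0, x => Or.inr ((h.le_iff _ _).2 ⟨x, h.add_zero x⟩)
  | n + 1, x => by
    rcases h.zero_or_succ x with rfl | ⟨y, rfl⟩
    · exact Or.inl ((h.le_iff _ _).2 ⟨_, h.add_zero _⟩)
    · rcases le_total n y with hy | hy
      · obtain ⟨z, hz⟩ := (h.le_iff _ _).1 hy
        exact Or.inl ((h.le_iff _ _).2 ⟨z, by rw [h.add_succ, hz]; rfl⟩)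
      · obtain ⟨z, hz⟩ := (h.le_iff _ _).1 hy
        refine Or.inr ((h.le_iff _ _).2 ⟨z, ?_⟩)
        show M.add z (M.succ (M.num n)) = _
        rw [h.add_succ, hz]

theorem add_num_assoc (w : M.D) (j k : ℕ) :
    M.add w (M.num (j + k)) = M.add (M.add w (M.num j)) (M.num k) := by
  induction k with
  | zero => exact (h.add_zero _).symm
  | succ k ih =>
    show M.add w (M.succ (M.num (j + k))) = M.add _ (M.succ (M.num k))
    rw [h.add_succ, h.add_succ, ih]

theorem le_of_num_le (k N : ℕ) (hk : k ≤ N) (z : M.D) (hz : M.le (M.num N) z) :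
    M.le (M.num k) z := by
  obtain ⟨w, hw⟩ := (h.le_iff _ _).1 hz
  refine (h.le_iff _ _).2 ⟨M.add w (M.num (N - k)), ?_⟩
  rw [← add_num_assoc h, Nat.sub_add_cancel hk, hw]

theorem num_le_self (N : ℕ) : M.le (M.num N) (M.num N) :=
  (h.le_iff _ _).2 ⟨M.num 0, by rw [num_add h, Nat.zero_add]⟩

end

/-- Standard evaluation. -/
def Term.nval (v : ℕ → ℕ) : Term → ℕ
  | .var i => v i
  | .zero => 0
  | .succ t => t.nval v + 1
  | .add s t => s.nval v + t.nval v
  | .mul s t => s.nval v * t.nval v
  | .exp t => 2 ^ t.nval v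

theorem val_num {M : Model} (h : IsEA M) (t : Term) (u : ℕ → M.D) (u0 : ℕ → ℕ)
    (hu : ∀ i ∈ t.vars, u i = M.num (u0 i)) : t.val M u = M.num (t.nval u0) := by
  induction t with
  | var i => exact hu i (by simp [Term.vars])
  | zero => rfl
  | succ t ih =>
    simp only [Term.val, Term.nval]
    rw [ih hu]; rfl
  | add s t ih1 ih2 =>
    simp only [Term.val, Term.nval]
    rw [ih1 fun i hi => hu i (by simp [Term.vars, hi]),
      ih2 fun i hi => hu i (by simp [Term.vars, hi]), num_add h]
  | mul s t ih1 ih2 =>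
    simp only [Term.val, Term.nval]
    rw [ih1 fun i hi => hu i (by simp [Term.vars, hi]),
      ih2 fun i hi => hu i (by simp [Term.vars, hi]), num_mul h]
  | exp t ih =>
    simp only [Term.val, Term.nval]
    rw [ih hu, num_exp h]

/-- Numerals. -/
def numT : ℕ → Term
  | 0 => .zero
  | n + 1 => .succ (numT n)

theorem val_numT (M : Model) (v : ℕ → M.D) : ∀ n, (numT n).val M v = M.num n
  | 0 => rfl
  | n + 1 => congrArg M.succ (val_numT M v n)

theorem nval_numT (v : ℕ → ℕ) : ∀ n, (numT n).nval v = n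
  | 0 => rfl
  | n + 1 => congrArg (· + 1) (nval_numT v n)

theorem vars_numT : ∀ n, (numT n).vars = ∅
  | 0 => rfl
  | n + 1 => vars_numT n

theorem poly_term {α : Type} (e : α → ℕ) (p : Poly α) : ∃ s t : Term,
    (∀ i ∈ s.vars ∪ t.vars, ∃ a, e a = i) ∧
    ∀ v : ℕ → ℕ, p (v ∘ e) = (s.nval v : ℤ) - t.nval v := by
  refine Poly.induction (C := fun p => ∃ s t : Term,
    (∀ i ∈ s.vars ∪ t.vars, ∃ a, e a = i) ∧
    ∀ v : ℕ → ℕ, p (v ∘ e) = (s.nval v : ℤ) - t.nval v) ?_ ?_ ?_ ?_ p
  · intro a
    refine ⟨.var (e a), .zero, ?_, fun v => ?_⟩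
    · intro i hi
      simp only [Term.vars, Finset.union_empty, Finset.mem_singleton] at hi
      exact ⟨a, hi.symm⟩
    · simp [Term.nval]
  · intro n
    refine ⟨numT n.toNat, numT (-n).toNat, ?_, fun v => ?_⟩
    · intro i hi
      simp [vars_numT] at hi
    · rw [nval_numT, nval_numT]
      simp only [Poly.const_apply]
      omega
  · rintro f g ⟨s1, t1, h1, e1⟩ ⟨s2, t2, h2, e2⟩
    refine ⟨.add s1 t2, .add t1 s2, ?_, fun v => ?_⟩
    · intro i hi
      simp only [Term.vars, Finset.mem_union] at hi h1 h2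
      rcases hi with (hi | hi) | (hi | hi)
      · exact h1 i (Or.inl hi)
      · exact h2 i (Or.inr hi)
      · exact h1 i (Or.inr hi)
      · exact h2 i (Or.inl hi)
    · rw [Poly.sub_apply, e1, e2]
      simp only [Term.nval]
      push_cast
      ring
  · rintro f g ⟨s1, t1, h1, e1⟩ ⟨s2, t2, h2, e2⟩
    refine ⟨.add (.mul s1 s2) (.mul t1 t2), .add (.mul s1 t2) (.mul t1 s2), ?_, fun v => ?_⟩
    · intro i hi
      simp only [Term.vars, Finset.mem_union] at hi h1 h2
      rcases hi with ((hi | hi) | (hi | hi)) | ((hi | hi) | (hi | hi))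
      · exact h1 i (Or.inl hi)
      · exact h2 i (Or.inl hi)
      · exact h1 i (Or.inr hi)
      · exact h2 i (Or.inr hi)
      · exact h1 i (Or.inl hi)
      · exact h2 i (Or.inr hi)
      · exact h1 i (Or.inr hi)
      · exact h2 i (Or.inl hi)
    · rw [Poly.mul_apply, e1, e2]
      simp only [Term.nval]
      push_cast
      ring

/-- `n` at `0` and `y` from `2` on. -/
def asg0 (n : ℕ) (y : ℕ → ℕ) (i : ℕ) : ℕ := if i = 0 then n else y (i - 2)

theorem rep (p : ℕ → Prop) (hp : REPred p) : ∃ (k : ℕ) (s t : Term),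
    (∀ i ∈ s.vars ∪ t.vars, i = 0 ∨ (2 ≤ i ∧ i < k + 2)) ∧
    ∀ n, p n ↔ ∃ y : ℕ → ℕ, s.nval (asg0 n y) = t.nval (asg0 n y) := by
  classical
  obtain ⟨δ, hδ, P, hP⟩ := Pool.Agent.Helper344.DP.finite_dummies
    (Pool.Agent.Helper344.DP.dprm hp)
  let E := Fintype.equivFin δ
  obtain ⟨s, t, h1, h2⟩ := poly_term
    (Sum.elim (fun _ : Unit => 0) (fun d : δ => (E d).val + 2)) P
  refine ⟨Fintype.card δ, s, t, ?_, fun n => ?_⟩
  · intro i hi
    obtain ⟨a, rfl⟩ := h1 i hi
    rcases a with a | a
    · exact Or.inl rfl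
    · right
      have := (E a).isLt
      simp only [Sum.elim_inr]
      omega
  · have h3 := hP fun _ => n
    have h3' : p n ↔ ∃ t, P (Sum.elim (fun _ => n) t) = 0 := h3
    rw [h3']
    constructor
    · rintro ⟨y, hy⟩
      refine ⟨fun j => if hj : j < Fintype.card δ then y (E.symm ⟨j, hj⟩) else 0, ?_⟩
      have h4 := h2 (asg0 n fun j => if hj : j < Fintype.card δ then y (E.symm ⟨j, hj⟩) else 0)
      have h5 : (asg0 n fun j => if hj : j < Fintype.card δ then y (E.symm ⟨j, hj⟩) else 0) ∘
          (Sum.elim (fun _ : Unit => 0) (fun d : δ => (E d).val + 2)) =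
          Sum.elim (fun _ => n) y := by
        funext a
        rcases a with a | a
        · simp [asg0]
        · simp [asg0]
      rw [h5, hy] at h4
      omega
    · rintro ⟨y, hy⟩
      refine ⟨fun d => y (E d).val, ?_⟩
      have h4 := h2 (asg0 n y)
      have h5 : (asg0 n y) ∘ (Sum.elim (fun _ : Unit => 0) (fun d : δ => (E d).val + 2)) =
          Sum.elim (fun _ => n) fun d => y (E d).val := by
        funext a
        rcases a with a | a
        · simp [asg0]
        · simp [asg0]
      rw [h5] at h4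
      rw [h4]
      omega

/-- `∃ x_i φ`. -/
def ex (i : ℕ) (φ : Form) : Form := .neg (.all i (.neg φ))

theorem sat_ex (M : Model) (v : ℕ → M.D) (i : ℕ) (φ : Form) :
    (ex i φ).sat M v ↔ ∃ x, φ.sat M (update v i x) := by
  simp only [ex, Form.sat]
  push Not
  rfl

/-- `∃ x_2, ..., x_{c+1} ≤ x_1 ψ`. -/
def exB : ℕ → Form → Form
  | 0, ψ => ψ
  | c + 1, ψ => ex (c + 2) (.and (.le (.var (c + 2)) (.var 1)) (exB c ψ))

theorem sat_exB (M : Model) (ψ : Form) : ∀ (c : ℕ) (v : ℕ → M.D),
    (exB c ψ).sat M v ↔ ∃ w : ℕ → M.D, (∀ j < c, M.le (w j) (v 1)) ∧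
      ψ.sat M (fun i => if 2 ≤ i ∧ i < c + 2 then w (i - 2) else v i)
  | 0, v => by
    have : ∀ w : ℕ → M.D, (fun i => if 2 ≤ i ∧ i < 0 + 2 then w (i - 2) else v i) = v := by
      intro w; funext i; rw [if_neg]; omega
    simp only [exB, this]
    constructor
    · intro h; exact ⟨v, by simp, h⟩
    · rintro ⟨_, _, h⟩; exact h
  | c + 1, v => by
    rw [exB, sat_ex]
    constructor
    · rintro ⟨d, h1, h2⟩
      rw [sat_exB M ψ c] at h2
      obtain ⟨w, h3, h4⟩ := h2
      simp only [Form.sat, Term.val, update_self] at h1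
      rw [update_of_ne (by omega)] at h1 h3
      refine ⟨update w c d, ?_, ?_⟩
      · intro j hj
        by_cases hjc : j = c
        · subst hjc; rw [update_self]; exact h1
        · rw [update_of_ne hjc]; exact h3 j (by omega)
      · convert h4 using 2
        rename_i i
        by_cases h5 : 2 ≤ i ∧ i < c + 2
        · rw [if_pos h5, if_pos (by omega), update_of_ne (by omega)]
        · rw [if_neg h5]
          by_cases h6 : i = c + 2
          · subst h6
            simp
          · rw [if_neg (by omega), update_of_ne h6]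
    · rintro ⟨w, h1, h2⟩
      refine ⟨w c, ?_, ?_⟩
      · simp only [Form.sat, Term.val, update_self]
        rw [update_of_ne (by omega)]
        exact h1 c (by omega)
      · rw [sat_exB M ψ c]
        refine ⟨w, ?_, ?_⟩
        · intro j hj
          rw [update_of_ne (by omega)]
          exact h1 j (by omega)
        · convert h2 using 2
          rename_i i
          by_cases h5 : 2 ≤ i ∧ i < c + 2
          · rw [if_pos h5, if_pos (by omega)]
          · rw [if_neg h5]
            by_cases h6 : i = c + 2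
            · subst h6
              simp
            · rw [if_neg (by omega), update_of_ne h6]

end Pool.Agent.K7.H50.TD
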