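import Pool.Agent.K7.H50.TD.Defs

set_option autoImplicit false

namespace Pool.Agent.K7.H50.TD
open Function

/-- Change the interpretation of the relation symbols. -/
@[reducible] def Model.setRel (M : Model) (R : ℕ → List M.D → Prop) : Model where
  D := M.D
  zero := M.zero
  succ := M.succ
  add := M.add
  mul := M.mul
  exp := M.exp
  le := M.le
  rel := R

theorem Term.val_setRel (M : Model) (R : ℕ → List M.D → Prop) (v : ℕ → M.D) (t : Term) :
    t.val (M.setRel R) v = t.val M v := by
  induction t with
  | var i => rfl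
  | zero => rfl
  | succ t ih => simp only [Term.val]; rw [ih]
  | add s t ih1 ih2 => simp only [Term.val]; rw [ih1, ih2]
  | mul s t ih1 ih2 => simp only [Term.val]; rw [ih1, ih2]
  | exp t ih => simp only [Term.val]; rw [ih]

theorem Term.val_congr (M : Model) (t : Term) (v w : ℕ → M.D) (h : ∀ i ∈ t.vars, v i = w i) :
    t.val M v = t.val M w := by
  induction t with
  | var i => exact h i (by simp [Term.vars])
  | zero => rfl
  | succ t ih => simp only [Term.val]; rw [ih h]
  | add s t ih1 ih2 =>
    simp only [Term.val]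
    rw [ih1 fun i hi => h i (by simp [Term.vars, hi]), ih2 fun i hi => h i (by simp [Term.vars, hi])]
  | mul s t ih1 ih2 =>
    simp only [Term.val]
    rw [ih1 fun i hi => h i (by simp [Term.vars, hi]), ih2 fun i hi => h i (by simp [Term.vars, hi])]
  | exp t ih => simp only [Term.val]; rw [ih h]

theorem vars_sub_foldr (ts : List Term) (t : Term) (ht : t ∈ ts) :
    t.vars ⊆ ts.foldr (fun t S => t.vars ∪ S) ∅ := by
  induction ts with
  | nil => simp at ht
  | cons a ts ih =>
    rcases List.mem_cons.1 ht with rfl | h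
    · simp
    · exact (ih h).trans (by simp)

theorem Form.sat_congr (M : Model) (φ : Form) : ∀ (v w : ℕ → M.D), (∀ i ∈ φ.fv, v i = w i) →
    (φ.sat M v ↔ φ.sat M w) := by
  induction φ with
  | eq s t =>
    intro v w h
    simp only [Form.sat]
    rw [Term.val_congr M s v w fun i hi => h i (by simp [Form.fv, hi]),
      Term.val_congr M t v w fun i hi => h i (by simp [Form.fv, hi])]
  | le s t =>
    intro v w h
    simp only [Form.sat]
    rw [Term.val_congr M s v w fun i hi => h i (by simp [Form.fv, hi]),
      Term.val_congr M t v w fun i hi => h i (by simp [Form.fv, hi])]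
  | rel i ts =>
    intro v w h
    simp only [Form.sat]
    have : ts.map (Term.val M v) = ts.map (Term.val M w) := by
      apply List.map_congr_left
      intro t ht
      exact Term.val_congr M t v w fun i hi => h i (vars_sub_foldr ts t ht hi)
    rw [this]
  | neg φ ih =>
    intro v w h
    simp only [Form.sat]
    rw [ih v w h]
  | and φ ψ ih1 ih2 =>
    intro v w h
    simp only [Form.sat]
    rw [ih1 v w fun i hi => h i (by simp [Form.fv, hi]),
      ih2 v w fun i hi => h i (by simp [Form.fv, hi])]
  | all i φ ih =>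
    intro v w h
    simp only [Form.sat]
    refine forall_congr' fun x => ih _ _ fun j hj => ?_
    by_cases hij : j = i
    · subst hij; simp
    · simp only [Function.update_of_ne hij]
      exact h j (by simp [Form.fv, hij, hj])

theorem Form.sat_closed (M : Model) (φ : Form) (h : φ.fv = ∅) (v w : ℕ → M.D) :
    φ.sat M v ↔ φ.sat M w := φ.sat_congr M v w (by simp [h])

theorem holds_iff (M : Model) (φ : Form) (h : φ.fv = ∅) (v : ℕ → M.D) :
    M.Holds φ ↔ φ.sat M v :=
  ⟨fun H => H v, fun H w => (φ.sat_closed M h v w).1 H⟩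

theorem map_val_setRel (M : Model) (R : ℕ → List M.D → Prop) (v : ℕ → M.D) (ts : List Term) :
    ts.map (Term.val (M.setRel R) v) = ts.map (Term.val M v) :=
  List.map_congr_left fun t _ => t.val_setRel M R v

theorem sat_eq_set (M : Model) (R : ℕ → List M.D → Prop) (v : ℕ → M.D) (s t : Term) :
    (Form.eq s t).sat (M.setRel R) v ↔ s.val M v = t.val M v := by
  show s.val (M.setRel R) v = t.val (M.setRel R) v ↔ _
  simp only [Term.val_setRel]

theorem sat_le_set (M : Model) (R : ℕ → List M.D → Prop) (v : ℕ → M.D) (s t : Term) :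
    (Form.le s t).sat (M.setRel R) v ↔ M.le (s.val M v) (t.val M v) := by
  show M.le (s.val (M.setRel R) v) (t.val (M.setRel R) v) ↔ _
  simp only [Term.val_setRel]

theorem sat_rel_set (M : Model) (R : ℕ → List M.D → Prop) (v : ℕ → M.D) (i : ℕ)
    (ts : List Term) :
    (Form.rel i ts).sat (M.setRel R) v ↔ R i (ts.map (Term.val M v)) := by
  show R i (ts.map (Term.val (M.setRel R) v)) ↔ _
  rw [map_val_setRel]

theorem Form.sat_setRel_congr (M : Model) (R R' : ℕ → List M.D → Prop) (φ : Form) :
    (∀ i l, (i, l.length) ∈ φ.syms → (R i l ↔ R' i l)) →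
    ∀ v : ℕ → M.D, φ.sat (M.setRel R) v ↔ φ.sat (M.setRel R') v := by
  induction φ with
  | eq s t =>
    intro h v
    rw [sat_eq_set, sat_eq_set]
  | le s t =>
    intro h v
    rw [sat_le_set, sat_le_set]
  | rel i ts =>
    intro h v
    rw [sat_rel_set, sat_rel_set]
    refine h i _ ?_
    rw [List.length_map]
    simp [Form.syms]
  | neg φ ih =>
    intro h v
    exact not_congr (ih h v)
  | and φ ψ ih1 ih2 =>
    intro h v
    exact and_congr (ih1 (fun i l hi => h i l (by simp [Form.syms, hi])) v)
      (ih2 (fun i l hi => h i l (by simp [Form.syms, hi])) v)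
  | all i φ ih =>
    intro h v
    exact forall_congr' fun x => ih h _

/-- Formulas without relation symbols do not depend on their interpretation. -/
theorem Form.sat_arith (M : Model) (R : ℕ → List M.D → Prop) (φ : Form) (h : φ.syms = ∅)
    (v : ℕ → M.D) : φ.sat (M.setRel R) v ↔ φ.sat M v :=
  φ.sat_setRel_congr M R M.rel (by simp [h]) v

/-! ## Stripping foreign symbols and closing variables -/

/-- Replace atoms with symbols outside `S` by a contradiction. -/
def Form.strip (S : Finset (ℕ × ℕ)) : Form → Form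
  | .eq s t => .eq s t
  | .le s t => .le s t
  | .rel i ts => if (i, ts.length) ∈ S then .rel i ts else .neg (.eq .zero .zero)
  | .neg φ => .neg (φ.strip S)
  | .and φ ψ => .and (φ.strip S) (ψ.strip S)
  | .all i φ => .all i (φ.strip S)

theorem Form.syms_strip (S : Finset (ℕ × ℕ)) (φ : Form) : (φ.strip S).syms ⊆ S := by
  induction φ with
  | eq s t => simp [Form.strip, Form.syms]
  | le s t => simp [Form.strip, Form.syms]
  | rel i ts =>
    simp only [Form.strip]
    split_ifs with h
    · simpa [Form.syms] using h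
    · simp [Form.syms]
  | neg φ ih => exact ih
  | and φ ψ ih1 ih2 => exact Finset.union_subset ih1 ih2
  | all i φ ih => exact ih

theorem Form.sat_strip (M : Model) (S : Finset (ℕ × ℕ)) (φ : Form) : ∀ v : ℕ → M.D,
    (φ.strip S).sat M v ↔ φ.sat (M.setRel fun i l => (i, l.length) ∈ S ∧ M.rel i l) v := by
  induction φ with
  | eq s t =>
    intro v
    rw [sat_eq_set]; rfl
  | le s t =>
    intro v
    rw [sat_le_set]; rfl
  | rel i ts =>
    intro v
    rw [sat_rel_set, List.length_map]
    simp only [Form.strip]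
    split_ifs with h
    · simp [h, Form.sat]
    · simp [h, Form.sat]
  | neg φ ih =>
    intro v
    exact not_congr (ih v)
  | and φ ψ ih1 ih2 =>
    intro v
    exact and_congr (ih1 v) (ih2 v)
  | all i φ ih =>
    intro v
    exact forall_congr' fun x => ih _

/-- `∀ x_i (x_i = t → φ)`. -/
def asg (i : ℕ) (t : Term) (φ : Form) : Form := .all i (Form.imp (.eq (.var i) t) φ)

theorem Form.sat_imp (M : Model) (v : ℕ → M.D) (φ ψ : Form) :
    (Form.imp φ ψ).sat M v ↔ (φ.sat M v → ψ.sat M v) := by
  simp only [Form.imp, Form.sat]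
  tauto

theorem Form.sat_or (M : Model) (v : ℕ → M.D) (φ ψ : Form) :
    (Form.or φ ψ).sat M v ↔ (φ.sat M v ∨ ψ.sat M v) := by
  simp only [Form.or, Form.sat]
  tauto

theorem sat_asg (M : Model) (v : ℕ → M.D) (i : ℕ) (t : Term) (φ : Form) (h : i ∉ t.vars) :
    (asg i t φ).sat M v ↔ φ.sat M (update v i (t.val M v)) := by
  simp only [asg, Form.sat, Form.sat_imp]
  have ht : ∀ x, t.val M (update v i x) = t.val M v := fun x =>
    Term.val_congr M t _ _ fun j hj => update_of_ne (fun e => h (by rw [← e]; exact hj)) _ _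
  simp only [ht, Term.val, update_self]
  constructor
  · intro H; exact H _ rfl
  · rintro H x rfl; exact H

/-- Set the variables `x_n, ..., x_{n+c-1}` to zero. -/
def cl (n : ℕ) : ℕ → Form → Form
  | 0, φ => φ
  | c + 1, φ => asg (n + c) .zero (cl n c φ)

theorem sat_cl (M : Model) (n : ℕ) : ∀ (c : ℕ) (φ : Form) (v : ℕ → M.D),
    (cl n c φ).sat M v ↔ φ.sat M (fun k => if n ≤ k ∧ k < n + c then M.zero else v k)
  | 0, φ, v => by
    have : (fun k => if n ≤ k ∧ k < n + 0 then M.zero else v k) = v := by
      funext k; rw [if_neg]; omega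
    rw [this]; rfl
  | c + 1, φ, v => by
    rw [cl, sat_asg _ _ _ _ _ (by simp [Term.vars]), sat_cl M n c]
    have : (fun k => if n ≤ k ∧ k < n + c then M.zero else
        update v (n + c) (Term.val M v .zero) k) =
        (fun k => if n ≤ k ∧ k < n + (c + 1) then M.zero else v k) := by
      funext k
      by_cases h : k = n + c
      · subst h; simp [Term.val]
      · rw [update_of_ne h]
        by_cases h2 : n ≤ k ∧ k < n + c
        · rw [if_pos h2, if_pos]; omega
        · rw [if_neg h2, if_neg]; omega
    rw [this]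

theorem fv_asg_zero (i : ℕ) (φ : Form) : (asg i .zero φ).fv = φ.fv.erase i := by
  ext j
  simp [asg, Form.imp, Form.fv, Term.vars]

theorem syms_asg (i : ℕ) (t : Term) (φ : Form) : (asg i t φ).syms = φ.syms := by
  simp [asg, Form.imp, Form.syms]

theorem fv_cl (n : ℕ) : ∀ (c : ℕ) (φ : Form) (j : ℕ), j ∈ (cl n c φ).fv →
    j ∈ φ.fv ∧ ¬ (n ≤ j ∧ j < n + c)
  | 0, φ, j, h => ⟨h, by omega⟩
  | c + 1, φ, j, h => by
    rw [cl, fv_asg_zero, Finset.mem_erase] at h
    have := fv_cl n c φ j h.2
    exact ⟨this.1, by omega⟩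

theorem syms_cl (n : ℕ) : ∀ (c : ℕ) (φ : Form), (cl n c φ).syms = φ.syms
  | 0, _ => rfl
  | c + 1, φ => by rw [cl, syms_asg, syms_cl n c]

/-- Definability with arbitrary translations. -/
def Defs (A B : Form) : Prop :=
  ∃ τ : ℕ → ℕ → Form, ∀ M : Model, M.Holds A → (M.pull τ).Holds B

theorem defines_of_defs {β α : Thy} (h : Defs β.ax α.ax) : Defines β α := by
  obtain ⟨τ, hτ⟩ := h
  refine ⟨fun i n => cl n ((τ i n).strip β.L |>.fv.sup id |>.succ) ((τ i n).strip β.L),
    fun i n _ => ⟨?_, ?_⟩, fun M hM => ?_⟩
  · rw [syms_cl]; exact Form.syms_strip _ _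
  · intro j hj
    obtain ⟨h1, h2⟩ := fv_cl _ _ _ _ hj
    have h3 : j ≤ ((τ i n).strip β.L).fv.sup id := Finset.le_sup (f := id) h1
    rw [Finset.mem_range]
    simp only [Nat.succ_eq_add_one] at h2
    omega
  · have hM' : (M.setRel fun i l => (i, l.length) ∈ β.L ∧ M.rel i l).Holds β.ax := by
      intro v
      refine (Form.sat_setRel_congr M M.rel _ β.ax ?_ v).1 (hM v)
      intro i l hi
      simp [β.inL hi]
    have := hτ _ hM'
    intro v
    refine (Form.sat_setRel_congr M _ _ α.ax ?_ v).1 (this v)
    intro i l _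
    rw [sat_cl, Form.sat_strip]
    have hv : (fun k => if l.length ≤ k ∧ k < l.length +
        ((τ i l.length).strip β.L |>.fv.sup id |>.succ) then M.zero else l.getD k M.zero) =
        fun k => l.getD k M.zero := by
      funext k
      split_ifs with hk
      · rw [List.getD_eq_default _ _ hk.1]
      · rfl
    rw [hv]

theorem defs_of_defines {β α : Thy} (h : Defines β α) : Defs β.ax α.ax := by
  obtain ⟨τ, _, hτ⟩ := h
  exact ⟨τ, hτ⟩

/-! ## Shifting symbols -/

/-- Rename the relation symbols `i` to `i + N`. -/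
def Form.shift (N : ℕ) : Form → Form
  | .eq s t => .eq s t
  | .le s t => .le s t
  | .rel i ts => .rel (i + N) ts
  | .neg φ => .neg (φ.shift N)
  | .and φ ψ => .and (φ.shift N) (ψ.shift N)
  | .all i φ => .all i (φ.shift N)

theorem Form.fv_shift (N : ℕ) (φ : Form) : (φ.shift N).fv = φ.fv := by
  induction φ with
  | eq s t => rfl
  | le s t => rfl
  | rel i ts => rfl
  | neg φ ih => exact ih
  | and φ ψ ih1 ih2 => simp [Form.shift, Form.fv, ih1, ih2]
  | all i φ ih => simp [Form.shift, Form.fv, ih]

theorem Form.syms_shift (N : ℕ) (φ : Form) :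
    (φ.shift N).syms = φ.syms.image fun p => (p.1 + N, p.2) := by
  induction φ with
  | eq s t => rfl
  | le s t => rfl
  | rel i ts => simp [Form.shift, Form.syms]
  | neg φ ih => exact ih
  | and φ ψ ih1 ih2 => simp only [Form.shift, Form.syms, ih1, ih2, Finset.image_union]
  | all i φ ih => exact ih

theorem Form.sat_shift (M : Model) (N : ℕ) (φ : Form) : ∀ v : ℕ → M.D,
    (φ.shift N).sat M v ↔ φ.sat (M.setRel fun i l => M.rel (i + N) l) v := by
  induction φ with
  | eq s t =>
    intro v
    rw [sat_eq_set]; rfl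
  | le s t =>
    intro v
    rw [sat_le_set]; rfl
  | rel i ts =>
    intro v
    rw [sat_rel_set]; rfl
  | neg φ ih =>
    intro v
    exact not_congr (ih v)
  | and φ ψ ih1 ih2 =>
    intro v
    exact and_congr (ih1 v) (ih2 v)
  | all i φ ih =>
    intro v
    exact forall_congr' fun x => ih _

/-- The atomic formula `rel i (x_0, ..., x_{n-1})`. -/
def idF (i n : ℕ) : Form := .rel i ((List.range n).map .var)

theorem sat_idF (M : Model) (i : ℕ) (l : List M.D) :
    (idF i l.length).sat M (fun k => l.getD k M.zero) ↔ M.rel i l := by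
  have : ((List.range l.length).map Term.var).map (Term.val M fun k => l.getD k M.zero) = l := by
    rw [List.map_map]
    apply List.ext_getElem
    · simp
    · intro n h1 h2
      simp [Term.val, h2]
  simp only [idF, Form.sat]
  rw [this]

end Pool.Agent.K7.H50.TD
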