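import Pool.Agent.K7.H50.TD.Code

set_option autoImplicit false

namespace Pool.Agent.K7.H50.TD
open Function Encodable

/-- Propositional atoms: `(0, 0, [x, y])` is `x = y`, `(1, 0, [x, y])` is `x ≤ y`, `(2, i, l)` is
`rel i l`, and `(b + 3, m, l)` is the truth of the formula `m` under `l` in the structure `b`. -/
abbrev At : Type := ℕ × ℕ × List ℕ

/-- The atom `x = y`. -/
def eA (x y : ℕ) : At := (0, 0, [x, y])

/-- The premises `p.1 = p.2`. -/
def eqs (L : List (ℕ × ℕ)) : List (At × Bool) := L.map fun p => (eA p.1 p.2, false)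

/-- The values of the terms `r` under `l`. -/
def dM (r : List ℕ) (l : List ℕ) : List ℕ := r.map fun t => dC t l

/-- The clauses. -/
def cls (B A : ℕ) (ms : List ℕ) (b x y z c : ℕ) (l r : List ℕ) (L : List (ℕ × ℕ)) :
    List (List (At × Bool)) :=
  [ [(eA x x, true)],
    ((x, y, L.map Prod.fst), false) :: ((x, y, L.map Prod.snd), true) :: eqs L,
    (eA (dC x (L.map Prod.fst)) (dC x (L.map Prod.snd)), true) :: eqs L,
    [(eA (dC (tVar x) l) (l.getD x 0), true)],
    [(eA (dC 0 l) 0, true)],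
    [(eA (dC (tSucc x) l) (dC (tSucc (tVar 0)) [dC x l]), true)],
    [(eA (dC (tExp x) l) (dC (tExp (tVar 0)) [dC x l]), true)],
    [(eA (dC (tAdd x y) l) (dC (tAdd (tVar 0) (tVar 1)) [dC x l, dC y l]), true)],
    [(eA (dC (tMul b x y) l) (dC (tMul 0 (tVar 0) (tVar 1)) [dC x l, dC y l]), true)],
    [((b + 3, 0, l), true)],
    [((b + 3, fEq x y, l), true), (eA (dC x l) (dC y l), false)],
    [((b + 3, fEq x y, l), false), (eA (dC x l) (dC y l), true)],
    [((b + 3, fLe x y, l), true), ((1, 0, [dC x l, dC y l]), false)],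
    [((b + 3, fLe x y, l), false), ((1, 0, [dC x l, dC y l]), true)],
    [((3, fRel x r, l), true), ((2, x, dM r l), false)],
    [((3, fRel x r, l), false), ((2, x, dM r l), true)],
    [((b + 4, fRel x r, l), true), ((3, ms.getD (Nat.pair x r.length) 0, dM r l), false)],
    [((b + 4, fRel x r, l), false), ((3, ms.getD (Nat.pair x r.length) 0, dM r l), true)],
    [((b + 3, fNand x y, l), true), ((b + 3, x, l), true)],
    [((b + 3, fNand x y, l), true), ((b + 3, y, l), true)],
    [((b + 3, fNand x y, l), false), ((b + 3, x, l), false), ((b + 3, y, l), false)],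
    [((b + 3, fAll z x y, l), false), ((b + 3, y, setL l x c), true)],
    [((b + 3, fAll z x y, l), true), ((b + 3, y, setL l x (wC b x y l)), false)],
    [((3, A, []), true)],
    [((4, B, []), false)] ]

/-- The translation coded by `ms`. -/
def tau (ms : List ℕ) (i n : ℕ) : Form := frm (ms.getD (Nat.pair i n) 0)

/-- The two structures `M` and `M.pull τ`. -/
def Rbs (M : Model) (ms : List ℕ) (b : ℕ) : ℕ → List M.D → Prop :=
  if b = 0 then M.rel else (M.pull (tau ms)).rel

theorem Rbs_zero (M : Model) (ms : List ℕ) : Rbs M ms 0 = M.rel := if_pos rfl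
theorem Rbs_succ (M : Model) (ms : List ℕ) (b : ℕ) : Rbs M ms (b + 1) = (M.pull (tau ms)).rel :=
  if_neg (Nat.succ_ne_zero b)

/-- A valuation satisfies all clauses. -/
def Good (B A : ℕ) (ms : List ℕ) (v : At → Bool) : Prop :=
  ∀ (b x y z c : ℕ) (l r : List ℕ) (L : List (ℕ × ℕ)), ∀ C ∈ cls B A ms b x y z c l r L,
    ∃ lit ∈ C, v lit.1 = lit.2

/-! ## Soundness -/

section
variable (M : Model) (ms : List ℕ)

/-- The valuation given by a structure. -/
def VP : At → Prop
  | (0, _, l) => rho M (Rbs M ms) (l.getD 0 0) = rho M (Rbs M ms) (l.getD 1 0)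
  | (1, _, l) => M.le (rho M (Rbs M ms) (l.getD 0 0)) (rho M (Rbs M ms) (l.getD 1 0))
  | (2, i, l) => M.rel i (l.map (rho M (Rbs M ms)))
  | (b + 3, m, l) => (frm m).sat (M.setRel (Rbs M ms b)) (asn M (Rbs M ms) l)

theorem VP_e (x y : ℕ) : VP M ms (eA x y) ↔ rho M (Rbs M ms) x = rho M (Rbs M ms) y := Iff.rfl

theorem map_getD (L : List (ℕ × ℕ)) (h : ∀ p ∈ L, rho M (Rbs M ms) p.1 = rho M (Rbs M ms) p.2) :
    asn M (Rbs M ms) (L.map Prod.fst) = asn M (Rbs M ms) (L.map Prod.snd) := by
  funext k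
  unfold asn
  by_cases hk : k < L.length
  · rw [List.getD_eq_getElem _ _ (by simpa using hk), List.getD_eq_getElem _ _ (by simpa using hk)]
    simpa using h _ (List.getElem_mem hk)
  · rw [List.getD_eq_default _ _ (by simpa using hk), List.getD_eq_default _ _ (by simpa using hk)]

theorem VP_cong (L : List (ℕ × ℕ)) (h : ∀ p ∈ L, rho M (Rbs M ms) p.1 = rho M (Rbs M ms) p.2)
    (k i : ℕ) (h1 : VP M ms (k, i, L.map Prod.fst)) : VP M ms (k, i, L.map Prod.snd) := by
  have hm := map_getD M ms L h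
  match k, h1 with
  | 0, h1 =>
    have h0 := congrFun hm 0
    have h2 := congrFun hm 1
    unfold asn at h0 h2
    simp only [VP] at h1 ⊢
    rw [← h0, ← h2]; exact h1
  | 1, h1 =>
    have h0 := congrFun hm 0
    have h2 := congrFun hm 1
    unfold asn at h0 h2
    simp only [VP] at h1 ⊢
    rw [← h0, ← h2]; exact h1
  | 2, h1 =>
    have : (L.map Prod.fst).map (rho M (Rbs M ms)) = (L.map Prod.snd).map (rho M (Rbs M ms)) := by
      rw [List.map_map, List.map_map]
      exact List.map_congr_left fun p hp => h p hp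
    simp only [VP] at h1 ⊢
    rw [← this]; exact h1
  | b + 3, h1 =>
    simp only [VP] at h1 ⊢
    rw [← hm]; exact h1

theorem asn_one (x : ℕ) : asn M (Rbs M ms) [x] 0 = rho M (Rbs M ms) x := rfl
theorem asn_two (x y : ℕ) : asn M (Rbs M ms) [x, y] 1 = rho M (Rbs M ms) y := rfl
theorem asn_two0 (x y : ℕ) : asn M (Rbs M ms) [x, y] 0 = rho M (Rbs M ms) x := rfl

theorem map_dM (r l : List ℕ) : (dM r l).map (rho M (Rbs M ms)) =
    (r.map trm).map (Term.val M (asn M (Rbs M ms) l)) := by
  rw [dM, List.map_map, List.map_map]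
  exact List.map_congr_left fun t _ => rho_dC M _ t l

theorem VP_rel0 (x : ℕ) (r l : List ℕ) :
    VP M ms (3, fRel x r, l) ↔ VP M ms (2, x, dM r l) := by
  simp only [VP]
  rw [frm_rel, Rbs_zero, sat_rel_set, map_dM]

theorem asn_dM (r l : List ℕ) : asn M (Rbs M ms) (dM r l) =
    fun k => ((dM r l).map (rho M (Rbs M ms))).getD k M.zero := by
  funext k
  unfold asn
  by_cases hk : k < (dM r l).length
  · rw [List.getD_eq_getElem _ _ hk, List.getD_eq_getElem _ _ (by simpa using hk)]
    simp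
  · rw [List.getD_eq_default _ _ (by omega), List.getD_eq_default _ _ (by simp; omega)]
    exact rho_zero M _

theorem VP_rel1 (b x : ℕ) (r l : List ℕ) :
    VP M ms (b + 4, fRel x r, l) ↔ VP M ms (3, ms.getD (Nat.pair x r.length) 0, dM r l) := by
  show (frm (fRel x r)).sat (M.setRel (Rbs M ms (b + 1))) (asn M (Rbs M ms) l) ↔
    (frm (ms.getD (Nat.pair x r.length) 0)).sat (M.setRel (Rbs M ms 0))
      (asn M (Rbs M ms) (dM r l))
  rw [frm_rel, Rbs_succ, sat_rel_set, Rbs_zero]
  show (tau ms x ((r.map trm).map (Term.val M (asn M (Rbs M ms) l))).length).sat M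
    (fun k => ((r.map trm).map (Term.val M (asn M (Rbs M ms) l))).getD k M.zero) ↔ _
  rw [List.length_map, List.length_map, ← map_dM, ← asn_dM]
  rfl

theorem sound (A B : ℕ) (hA : (frm A).sat M (fun _ => M.zero))
    (hB : ¬ (frm B).sat (M.pull (tau ms)) (fun _ => M.zero)) :
    ∃ v : At → Bool, Good B A ms v := by
  classical
  refine ⟨fun a => decide (VP M ms a), ?_⟩
  intro b x y z c l r L
  simp only [cls, List.forall_mem_cons]
  refine ⟨?_, ?_, ?_, ?_, ?_, ?_, ?_, ?_, ?_, ?_, ?_, ?_, ?_, ?_, ?_, ?_, ?_, ?_, ?_, ?_, ?_, ?_,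
    ?_, ?_, ?_, ?_⟩
  · exact ⟨_, List.mem_cons_self, by simp [VP_e]⟩
  · by_cases h : ∀ p ∈ L, rho M (Rbs M ms) p.1 = rho M (Rbs M ms) p.2
    · by_cases h1 : VP M ms (x, y, L.map Prod.fst)
      · exact ⟨((x, y, L.map Prod.snd), true), by simp, by simpa using VP_cong M ms L h x y h1⟩
      · exact ⟨((x, y, L.map Prod.fst), false), by simp, by simpa using h1⟩
    · push Not at h
      obtain ⟨p, hp, h⟩ := h
      refine ⟨(eA p.1 p.2, false), ?_, by simpa [VP_e] using h⟩
      simp only [eqs, List.mem_cons, List.mem_map]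
      exact Or.inr (Or.inr ⟨p, hp, rfl⟩)
  · by_cases h : ∀ p ∈ L, rho M (Rbs M ms) p.1 = rho M (Rbs M ms) p.2
    · refine ⟨_, List.mem_cons_self, ?_⟩
      simp only [decide_eq_true_eq, VP_e]
      rw [rho_dC, rho_dC, map_getD M ms L h]
    · push Not at h
      obtain ⟨p, hp, h⟩ := h
      refine ⟨(eA p.1 p.2, false), ?_, by simpa [VP_e] using h⟩
      simp only [eqs, List.mem_cons, List.mem_map]
      exact Or.inr ⟨p, hp, rfl⟩
  · refine ⟨_, List.mem_cons_self, ?_⟩
    simp only [decide_eq_true_eq, VP_e]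
    rw [rho_dC, trm_var]; rfl
  · refine ⟨_, List.mem_cons_self, ?_⟩
    simp only [decide_eq_true_eq, VP_e]
    rw [rho_dC, trm_zero, rho_zero]; rfl
  · refine ⟨_, List.mem_cons_self, ?_⟩
    simp only [decide_eq_true_eq, VP_e]
    rw [rho_dC, rho_dC, trm_succ, trm_succ, trm_var]
    simp only [Term.val, asn_one, rho_dC]
  · refine ⟨_, List.mem_cons_self, ?_⟩
    simp only [decide_eq_true_eq, VP_e]
    rw [rho_dC, rho_dC, trm_exp, trm_exp, trm_var]
    simp only [Term.val, asn_one, rho_dC]
  · refine ⟨_, List.mem_cons_self, ?_⟩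
    simp only [decide_eq_true_eq, VP_e]
    rw [rho_dC, rho_dC, trm_add, trm_add, trm_var, trm_var]
    simp only [Term.val, asn_two, asn_two0, rho_dC]
  · refine ⟨_, List.mem_cons_self, ?_⟩
    simp only [decide_eq_true_eq, VP_e]
    rw [rho_dC, rho_dC, trm_mul, trm_mul, trm_var, trm_var]
    simp only [Term.val, asn_two, asn_two0, rho_dC]
  · refine ⟨_, List.mem_cons_self, ?_⟩
    simp only [decide_eq_true_eq, VP]
    rw [frm_zero]; rfl
  · have h : VP M ms (b + 3, fEq x y, l) ↔ VP M ms (eA (dC x l) (dC y l)) := by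
      rw [VP_e]
      simp only [VP]
      rw [frm_eq, sat_eq_set, rho_dC, rho_dC]
    simp only [List.mem_cons, List.not_mem_nil, or_false, exists_eq_or_imp, exists_eq_left, h]
    by_cases h1 : VP M ms (eA (dC x l) (dC y l)) <;> simp [h1]
  · have h : VP M ms (b + 3, fEq x y, l) ↔ VP M ms (eA (dC x l) (dC y l)) := by
      rw [VP_e]
      simp only [VP]
      rw [frm_eq, sat_eq_set, rho_dC, rho_dC]
    simp only [List.mem_cons, List.not_mem_nil, or_false, exists_eq_or_imp, exists_eq_left, h]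
    by_cases h1 : VP M ms (eA (dC x l) (dC y l)) <;> simp [h1]
  · have h : VP M ms (b + 3, fLe x y, l) ↔ VP M ms (1, 0, [dC x l, dC y l]) := by
      simp only [VP]
      rw [frm_le, sat_le_set, ← rho_dC, ← rho_dC]
      rfl
    simp only [List.mem_cons, List.not_mem_nil, or_false, exists_eq_or_imp, exists_eq_left, h]
    by_cases h1 : VP M ms (1, 0, [dC x l, dC y l]) <;> simp [h1]
  · have h : VP M ms (b + 3, fLe x y, l) ↔ VP M ms (1, 0, [dC x l, dC y l]) := by
      simp only [VP]
      rw [frm_le, sat_le_set, ← rho_dC, ← rho_dC]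
      rfl
    simp only [List.mem_cons, List.not_mem_nil, or_false, exists_eq_or_imp, exists_eq_left, h]
    by_cases h1 : VP M ms (1, 0, [dC x l, dC y l]) <;> simp [h1]
  · simp only [List.mem_cons, List.not_mem_nil, or_false, exists_eq_or_imp, exists_eq_left,
      VP_rel0]
    by_cases h1 : VP M ms (2, x, dM r l) <;> simp [h1]
  · simp only [List.mem_cons, List.not_mem_nil, or_false, exists_eq_or_imp, exists_eq_left,
      VP_rel0]
    by_cases h1 : VP M ms (2, x, dM r l) <;> simp [h1]
  · simp only [List.mem_cons, List.not_mem_nil, or_false, exists_eq_or_imp, exists_eq_left,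
      VP_rel1]
    generalize ms.getD (Nat.pair x r.length) 0 = q
    by_cases h1 : VP M ms (3, q, dM r l) <;> simp [h1]
  · simp only [List.mem_cons, List.not_mem_nil, or_false, exists_eq_or_imp, exists_eq_left,
      VP_rel1]
    generalize ms.getD (Nat.pair x r.length) 0 = q
    by_cases h1 : VP M ms (3, q, dM r l) <;> simp [h1]
  · have h : VP M ms (b + 3, fNand x y, l) ↔ ¬ (VP M ms (b + 3, x, l) ∧ VP M ms (b + 3, y, l)) := by
      simp only [VP]
      rw [frm_nand]
      rfl
    simp only [List.mem_cons, List.not_mem_nil, or_false, exists_eq_or_imp, exists_eq_left, h]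
    by_cases h1 : VP M ms (b + 3, x, l) <;> simp [h1]
  · have h : VP M ms (b + 3, fNand x y, l) ↔ ¬ (VP M ms (b + 3, x, l) ∧ VP M ms (b + 3, y, l)) := by
      simp only [VP]
      rw [frm_nand]
      rfl
    simp only [List.mem_cons, List.not_mem_nil, or_false, exists_eq_or_imp, exists_eq_left, h]
    by_cases h1 : VP M ms (b + 3, y, l) <;> simp [h1]
  · have h : VP M ms (b + 3, fNand x y, l) ↔ ¬ (VP M ms (b + 3, x, l) ∧ VP M ms (b + 3, y, l)) := by
      simp only [VP]
      rw [frm_nand]
      rfl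
    simp only [List.mem_cons, List.not_mem_nil, or_false, exists_eq_or_imp, exists_eq_left, h]
    by_cases h1 : VP M ms (b + 3, x, l) <;> by_cases h2 : VP M ms (b + 3, y, l) <;> simp [h1, h2]
  · have h : VP M ms (b + 3, fAll z x y, l) → VP M ms (b + 3, y, setL l x c) := by
      simp only [VP]
      rw [frm_all, asn_setL]
      intro h
      exact h _
    simp only [List.mem_cons, List.not_mem_nil, or_false, exists_eq_or_imp, exists_eq_left]
    by_cases h1 : VP M ms (b + 3, fAll z x y, l)
    · simp [h h1]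
    · simp [h1]
  · have h : VP M ms (b + 3, y, setL l x (wC b x y l)) → VP M ms (b + 3, fAll z x y, l) := by
      simp only [VP]
      rw [frm_all, asn_setL, rho_wC]
      intro h d
      by_contra hd
      exact @Classical.epsilon_spec M.D (fun c =>
        ¬ (frm y).sat (M.setRel (Rbs M ms b)) (update (asn M (Rbs M ms) l) x c)) ⟨d, hd⟩ h
    simp only [List.mem_cons, List.not_mem_nil, or_false, exists_eq_or_imp, exists_eq_left]
    by_cases h1 : VP M ms (b + 3, y, setL l x (wC b x y l))
    · simp [h h1]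
    · simp [h1]
  · refine ⟨_, List.mem_cons_self, ?_⟩
    simp only [decide_eq_true_eq]
    show (frm A).sat (M.setRel (Rbs M ms 0)) (asn M (Rbs M ms) [])
    rw [asn_nil, Rbs_zero]
    exact hA
  · refine ⟨_, List.mem_cons_self, ?_⟩
    simp only [decide_eq_false_iff_not]
    show ¬ (frm B).sat (M.setRel (Rbs M ms (0 + 1))) (asn M (Rbs M ms) [])
    rw [asn_nil, Rbs_succ]
    exact hB
  · simp

end

end Pool.Agent.K7.H50.TD
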