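import Mathlib

set_option autoImplicit false

namespace Pool.Agent.K7.H50.TD
open Function Encodable

/-! ## Computably presented propositional theories: unsatisfiability is r.e. -/

theorem testBit_prim : Primrec₂ fun a i : ℕ => Nat.testBit a i := by
  have h1 : Primrec₂ fun a i : ℕ => a / 2 ^ i % 2 :=
    Primrec.nat_mod.comp₂ (Primrec.nat_div.comp₂ Primrec₂.left
      ((Primrec₂.unpaired'.1 Nat.Primrec.pow).comp₂ (Primrec₂.const 2) Primrec₂.right))
      (Primrec₂.const 2)
  have h2 : PrimrecRel fun a i : ℕ => a / 2 ^ i % 2 = 1 :=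
    Primrec.eq.comp₂ h1 (Primrec₂.const 1)
  exact h2.decide.of_eq fun a i => (Nat.testBit_eq_decide_div_mod_eq).symm

theorem exists_bits (N : ℕ) (f : ℕ → Bool) : ∃ a < 2 ^ N, ∀ i < N, Nat.testBit a i = f i := by
  refine ⟨Nat.ofBits fun i : Fin N => f i, Nat.ofBits_lt_two_pow _, fun i hi => ?_⟩
  rw [Nat.testBit_ofBits_lt _ _ hi]

section
variable {Inp At : Type} [Primcodable Inp] [Primcodable At]

/-- The finite check. -/
def RR (cnf : Inp → ℕ → List (List (At × Bool))) (inp : Inp) (N : ℕ) : Prop :=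
  ∀ a < 2 ^ N, ∃ j < N, ∃ C ∈ cnf inp j, ∀ lit ∈ C,
    encode lit.1 < N ∧ Nat.testBit a (encode lit.1) ≠ lit.2

theorem RR_prim (cnf : Inp → ℕ → List (List (At × Bool))) (h : Primrec₂ cnf) :
    PrimrecRel (RR cnf) := by
  have b0 : PrimrecRel fun (lit : At × Bool) (p : ℕ × ℕ) =>
      encode lit.1 < p.2 ∧ Nat.testBit p.1 (encode lit.1) ≠ lit.2 := by
    have e : Primrec fun q : (At × Bool) × ℕ × ℕ => encode q.1.1 :=
      Primrec.encode.comp (Primrec.fst.comp Primrec.fst)
    have c1 : PrimrecPred fun q : (At × Bool) × ℕ × ℕ => encode q.1.1 < q.2.2 :=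
      Primrec.nat_lt.comp e (Primrec.snd.comp Primrec.snd)
    have c2 : PrimrecPred fun q : (At × Bool) × ℕ × ℕ =>
        Nat.testBit q.2.1 (encode q.1.1) = q.1.2 :=
      Primrec.eq.comp (testBit_prim.comp (Primrec.fst.comp Primrec.snd) e)
        (Primrec.snd.comp Primrec.fst)
    exact c1.and c2.not
  have b1 := b0.forall_mem_list
  have b2 := b1.exists_mem_list
  have b3 : PrimrecRel fun (j : ℕ) (q : Inp × ℕ × ℕ) => ∃ C ∈ cnf q.1 j, ∀ lit ∈ C,
      encode lit.1 < q.2.2 ∧ Nat.testBit q.2.1 (encode lit.1) ≠ lit.2 :=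
    b2.comp (f := fun x : ℕ × Inp × ℕ × ℕ => cnf x.2.1 x.1) (g := fun x => x.2.2)
      (h.comp (Primrec.fst.comp Primrec.snd) Primrec.fst) (Primrec.snd.comp Primrec.snd)
  have b4 := b3.exists_mem_list
  have b5 : PrimrecRel fun (a : ℕ) (q : Inp × ℕ) => ∃ j ∈ List.range q.2, ∃ C ∈ cnf q.1 j,
      ∀ lit ∈ C, encode lit.1 < q.2 ∧ Nat.testBit a (encode lit.1) ≠ lit.2 :=
    b4.comp (f := fun x : ℕ × Inp × ℕ => List.range x.2.2)
      (g := fun x => (x.2.1, x.1, x.2.2)) (Primrec.list_range.comp (Primrec.snd.comp Primrec.snd))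
      (Primrec.pair (Primrec.fst.comp Primrec.snd) (Primrec.pair Primrec.fst
        (Primrec.snd.comp Primrec.snd)))
  have b6 := b5.forall_mem_list
  have b7 : PrimrecRel fun (inp : Inp) (N : ℕ) => ∀ a ∈ List.range (2 ^ N),
      ∃ j ∈ List.range N, ∃ C ∈ cnf inp j,
      ∀ lit ∈ C, encode lit.1 < N ∧ Nat.testBit a (encode lit.1) ≠ lit.2 :=
    b6.comp (f := fun x : Inp × ℕ => List.range (2 ^ x.2)) (g := fun x => (x.1, x.2))
      (Primrec.list_range.comp ((Primrec₂.unpaired'.1 Nat.Primrec.pow).comp (Primrec.const 2)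
        Primrec.snd)) (Primrec.pair Primrec.fst Primrec.snd)
  exact b7.of_eq fun inp N => by simp [RR]

theorem RR_iff (cnf : Inp → ℕ → List (List (At × Bool))) (inp : Inp) :
    (¬ ∃ v : At → Bool, ∀ j, ∀ C ∈ cnf inp j, ∃ lit ∈ C, v lit.1 = lit.2) ↔
      ∃ N, RR cnf inp N := by
  constructor
  · intro hno
    by_contra hN
    push Not at hN
    have hN' : ∀ N, ∃ a, ∀ j < N, ∀ C ∈ cnf inp j, ∃ lit ∈ C,
        encode lit.1 < N → Nat.testBit a (encode lit.1) = lit.2 := by
      intro N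
      have := hN N
      simp only [RR] at this
      push Not at this
      obtain ⟨a, _, h⟩ := this
      exact ⟨a, h⟩
    choose a ha using hN'
    let w : ℕ → ℕ → Bool := fun N i => Nat.testBit (a N) i
    obtain ⟨u, φ, hφ, hlim⟩ := SeqCompactSpace.tendsto_subseq w
    apply hno
    refine ⟨fun x => u (encode x), fun j C hC => ?_⟩
    have hev : ∀ i, ∀ᶠ k in Filter.atTop, w (φ k) i = u i := by
      intro i
      have h1 : Filter.Tendsto (fun k => w (φ k) i) Filter.atTop (nhds (u i)) :=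
        (tendsto_pi_nhds.1 hlim) i
      rw [nhds_discrete, Filter.tendsto_pure] at h1
      exact h1
    have h2 : ∀ᶠ k in Filter.atTop, ∀ lit ∈ C,
        w (φ k) (encode lit.1) = u (encode lit.1) ∧ encode lit.1 < φ k := by
      clear hC
      induction C with
      | nil => simp
      | cons c C ih =>
        filter_upwards [ih, hev (encode c.1),
          hφ.tendsto_atTop.eventually (Filter.eventually_gt_atTop (encode c.1))] with k h1 h2 h3
        intro lit hl
        rcases List.mem_cons.1 hl with rfl | hl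
        · exact ⟨h2, h3⟩
        · exact h1 lit hl
    obtain ⟨k, hk1, hk2⟩ :=
      (h2.and (hφ.tendsto_atTop.eventually (Filter.eventually_gt_atTop j))).exists
    obtain ⟨lit, hl, hl2⟩ := ha (φ k) j hk2 C hC
    refine ⟨lit, hl, ?_⟩
    exact ((hk1 lit hl).1.symm).trans (hl2 (hk1 lit hl).2)
  · rintro ⟨N, hN⟩ ⟨v, hv⟩
    obtain ⟨a, ha, hab⟩ := exists_bits N fun i =>
      (decode (α := At) i).elim false v
    obtain ⟨j, _, C, hC, hC'⟩ := hN a ha
    obtain ⟨lit, hl, hl2⟩ := hv j C hC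
    obtain ⟨h1, h2⟩ := hC' lit hl
    apply h2
    rw [hab _ h1]
    simp [hl2]

/-- Projections of primitive recursive relations are r.e. -/
theorem re_of_prim {R : Inp → ℕ → Prop} (h : PrimrecRel R) : REPred fun x => ∃ N, R x N := by
  classical
  have h1 : Partrec (fun x ↦ Nat.rfind fun n => Part.some (decide (R x n))) :=
    Partrec.rfind (h.decide.to_comp.partrec)
  refine h1.dom_re.of_eq fun x => ?_
  rw [Nat.rfind_dom]
  simp only [Part.some_dom, Part.mem_some_iff]
  constructor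
  · rintro ⟨n, h, _⟩
    exact ⟨n, by simpa using h⟩
  · rintro ⟨n, h⟩
    exact ⟨n, by simpa using h, fun _ => trivial⟩

end

end Pool.Agent.K7.H50.TD
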