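import Pool.Agent.K7.H50.TD.Order
import Pool.Agent.K7.H50.TD.Pi01

set_option autoImplicit false

namespace Pool.Agent.K7.H50.TD
open Function Encodable

/-! ## Codes of terms and formulas -/

def tVar (i : ℕ) : ℕ := Nat.pair 0 i + 1
def tSucc (t : ℕ) : ℕ := Nat.pair 1 t + 1
def tExp (t : ℕ) : ℕ := Nat.pair 2 t + 1
def tAdd (s t : ℕ) : ℕ := Nat.pair 3 (Nat.pair s t) + 1
def tMul (k s t : ℕ) : ℕ := Nat.pair (k + 4) (Nat.pair s t) + 1

theorem up2 (n : ℕ) : n.unpair.2 < n + 1 := Nat.lt_succ_of_le (Nat.unpair_right_le n)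
theorem up21 (n : ℕ) : n.unpair.2.unpair.1 < n + 1 :=
  Nat.lt_succ_of_le ((Nat.unpair_left_le _).trans (Nat.unpair_right_le n))
theorem up22 (n : ℕ) : n.unpair.2.unpair.2 < n + 1 :=
  Nat.lt_succ_of_le ((Nat.unpair_right_le _).trans (Nat.unpair_right_le n))

/-- Decoding terms. -/
def trm : ℕ → Term
  | 0 => .zero
  | n + 1 =>
    have := up2 n
    have := up21 n
    have := up22 n
    match n.unpair.1 with
    | 0 => .var n.unpair.2
    | 1 => .succ (trm n.unpair.2)
    | 2 => .exp (trm n.unpair.2)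
    | 3 => .add (trm n.unpair.2.unpair.1) (trm n.unpair.2.unpair.2)
    | _ + 4 => .mul (trm n.unpair.2.unpair.1) (trm n.unpair.2.unpair.2)

theorem trm_zero : trm 0 = .zero := by rw [trm]
theorem trm_var (i : ℕ) : trm (tVar i) = .var i := by rw [tVar, trm]; simp
theorem trm_succ (t : ℕ) : trm (tSucc t) = .succ (trm t) := by rw [tSucc, trm]; simp
theorem trm_exp (t : ℕ) : trm (tExp t) = .exp (trm t) := by rw [tExp, trm]; simp
theorem trm_add (s t : ℕ) : trm (tAdd s t) = .add (trm s) (trm t) := by rw [tAdd, trm]; simp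
theorem trm_mul (k s t : ℕ) : trm (tMul k s t) = .mul (trm s) (trm t) := by
  rw [tMul, trm]; simp

theorem tcases (n : ℕ) : n = 0 ∨ (∃ i, n = tVar i) ∨ (∃ t, t < n ∧ n = tSucc t) ∨
    (∃ t, t < n ∧ n = tExp t) ∨ (∃ s t, s < n ∧ t < n ∧ n = tAdd s t) ∨
    (∃ k s t, s < n ∧ t < n ∧ n = tMul k s t) := by
  rcases n with _ | n
  · exact Or.inl rfl
  · have e1 : Nat.pair n.unpair.1 n.unpair.2 = n := Nat.pair_unpair n
    have e2 : Nat.pair n.unpair.2.unpair.1 n.unpair.2.unpair.2 = n.unpair.2 := Nat.pair_unpair _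
    right
    rcases h : n.unpair.1 with _ | _ | _ | _ | k
    · exact Or.inl ⟨n.unpair.2, by rw [tVar, ← h, e1]⟩
    · exact Or.inr (Or.inl ⟨n.unpair.2, up2 n, by rw [tSucc]; rw [h] at e1; exact congrArg _ e1.symm⟩)
    · exact Or.inr (Or.inr (Or.inl ⟨n.unpair.2, up2 n,
        by rw [tExp]; rw [h] at e1; exact congrArg _ e1.symm⟩))
    · exact Or.inr (Or.inr (Or.inr (Or.inl ⟨n.unpair.2.unpair.1, n.unpair.2.unpair.2, up21 n, up22 n,
        by rw [tAdd, e2]; rw [h] at e1; exact congrArg _ e1.symm⟩)))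
    · exact Or.inr (Or.inr (Or.inr (Or.inr ⟨k, n.unpair.2.unpair.1, n.unpair.2.unpair.2, up21 n,
        up22 n, by rw [tMul, e2]; rw [h] at e1; exact congrArg _ e1.symm⟩)))

/-- Coding terms. -/
def cdT : Term → ℕ
  | .var i => tVar i
  | .zero => 0
  | .succ t => tSucc (cdT t)
  | .add s t => tAdd (cdT s) (cdT t)
  | .mul s t => tMul 0 (cdT s) (cdT t)
  | .exp t => tExp (cdT t)

theorem trm_cdT (t : Term) : trm (cdT t) = t := by
  induction t with
  | var i => exact trm_var i
  | zero => exact trm_zero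
  | succ t ih => rw [cdT, trm_succ, ih]
  | add s t ih1 ih2 => rw [cdT, trm_add, ih1, ih2]
  | mul s t ih1 ih2 => rw [cdT, trm_mul, ih1, ih2]
  | exp t ih => rw [cdT, trm_exp, ih]

def fEq (s t : ℕ) : ℕ := Nat.pair 0 (Nat.pair s t) + 1
def fLe (s t : ℕ) : ℕ := Nat.pair 1 (Nat.pair s t) + 1
def fRel (i : ℕ) (r : List ℕ) : ℕ := Nat.pair 2 (Nat.pair i (encode r)) + 1
def fNand (s t : ℕ) : ℕ := Nat.pair 3 (Nat.pair s t) + 1
def fAll (k i m : ℕ) : ℕ := Nat.pair (k + 4) (Nat.pair i m) + 1

/-- Decoding formulas. -/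
def frm : ℕ → Form
  | 0 => .eq .zero .zero
  | n + 1 =>
    have := up21 n
    have := up22 n
    match n.unpair.1 with
    | 0 => .eq (trm n.unpair.2.unpair.1) (trm n.unpair.2.unpair.2)
    | 1 => .le (trm n.unpair.2.unpair.1) (trm n.unpair.2.unpair.2)
    | 2 => .rel n.unpair.2.unpair.1
        ((Denumerable.ofNat (List ℕ) n.unpair.2.unpair.2).map trm)
    | 3 => .neg (.and (frm n.unpair.2.unpair.1) (frm n.unpair.2.unpair.2))
    | _ + 4 => .all n.unpair.2.unpair.1 (frm n.unpair.2.unpair.2)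

theorem frm_zero : frm 0 = .eq .zero .zero := by rw [frm]
theorem frm_eq (s t : ℕ) : frm (fEq s t) = .eq (trm s) (trm t) := by rw [fEq, frm]; simp
theorem frm_le (s t : ℕ) : frm (fLe s t) = .le (trm s) (trm t) := by rw [fLe, frm]; simp
theorem frm_rel (i : ℕ) (r : List ℕ) : frm (fRel i r) = .rel i (r.map trm) := by
  rw [fRel, frm]; simp
theorem frm_nand (s t : ℕ) : frm (fNand s t) = .neg (.and (frm s) (frm t)) := by
  rw [fNand, frm]; simp
theorem frm_all (k i m : ℕ) : frm (fAll k i m) = .all i (frm m) := by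
  rw [fAll, frm]; simp

theorem fcases (n : ℕ) : n = 0 ∨ (∃ s t, n = fEq s t) ∨ (∃ s t, n = fLe s t) ∨
    (∃ i r, n = fRel i r) ∨ (∃ s t, s < n ∧ t < n ∧ n = fNand s t) ∨
    (∃ k i m, m < n ∧ n = fAll k i m) := by
  rcases n with _ | n
  · exact Or.inl rfl
  · have e1 : Nat.pair n.unpair.1 n.unpair.2 = n := Nat.pair_unpair n
    have e2 : Nat.pair n.unpair.2.unpair.1 n.unpair.2.unpair.2 = n.unpair.2 := Nat.pair_unpair _
    right
    rcases h : n.unpair.1 with _ | _ | _ | _ | k
    · exact Or.inl ⟨n.unpair.2.unpair.1, n.unpair.2.unpair.2,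
        by rw [fEq, e2]; rw [h] at e1; exact congrArg _ e1.symm⟩
    · exact Or.inr (Or.inl ⟨n.unpair.2.unpair.1, n.unpair.2.unpair.2,
        by rw [fLe, e2]; rw [h] at e1; exact congrArg _ e1.symm⟩)
    · exact Or.inr (Or.inr (Or.inl ⟨n.unpair.2.unpair.1,
        Denumerable.ofNat (List ℕ) n.unpair.2.unpair.2,
        by rw [fRel, Denumerable.encode_ofNat, e2]; rw [h] at e1; exact congrArg _ e1.symm⟩))
    · exact Or.inr (Or.inr (Or.inr (Or.inl ⟨n.unpair.2.unpair.1, n.unpair.2.unpair.2, up21 n, up22 n,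
        by rw [fNand, e2]; rw [h] at e1; exact congrArg _ e1.symm⟩)))
    · exact Or.inr (Or.inr (Or.inr (Or.inr ⟨k, n.unpair.2.unpair.1, n.unpair.2.unpair.2,
        up22 n, by rw [fAll, e2]; rw [h] at e1; exact congrArg _ e1.symm⟩)))

/-- Coding formulas (up to logical equivalence). -/
def cdF : Form → ℕ
  | .eq s t => fEq (cdT s) (cdT t)
  | .le s t => fLe (cdT s) (cdT t)
  | .rel i ts => fRel i (ts.map cdT)
  | .neg φ => fNand (cdF φ) (cdF φ)
  | .and φ ψ => fNand (fNand (cdF φ) (cdF ψ)) (fNand (cdF φ) (cdF ψ))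
  | .all i φ => fAll 0 i (cdF φ)

theorem sat_cdF (M : Model) (φ : Form) : ∀ v : ℕ → M.D, (frm (cdF φ)).sat M v ↔ φ.sat M v := by
  induction φ with
  | eq s t => intro v; rw [cdF, frm_eq, trm_cdT, trm_cdT]
  | le s t => intro v; rw [cdF, frm_le, trm_cdT, trm_cdT]
  | rel i ts =>
    intro v
    have : (ts.map cdT).map trm = ts := by
      rw [List.map_map]
      conv_rhs => rw [← List.map_id ts]
      exact List.map_congr_left fun t _ => trm_cdT t
    rw [cdF, frm_rel, this]
  | neg φ ih =>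
    intro v
    rw [cdF, frm_nand]
    simp only [Form.sat]
    rw [ih]; tauto
  | and φ ψ ih1 ih2 =>
    intro v
    rw [cdF, frm_nand, frm_nand]
    simp only [Form.sat]
    rw [ih1, ih2]; tauto
  | all i φ ih =>
    intro v
    rw [cdF, frm_all]
    exact forall_congr' fun x => ih _

/-! ## The Henkin domain -/

/-- The element denoted by the term `t` under the assignment `a`. -/
def dC (t : ℕ) (a : List ℕ) : ℕ := Nat.pair 0 (Nat.pair t (encode a)) + 1

/-- The witness for the failure of `∀ x_i φ_m` in the structure `b` under the assignment `a`. -/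
def wC (b i m : ℕ) (a : List ℕ) : ℕ := Nat.pair (b + 1) (Nat.pair i (Nat.pair m (encode a))) + 1

/-- Change the `i`-th entry of an assignment to `c`. -/
def setL (l : List ℕ) (i c : ℕ) : List ℕ :=
  (List.range (l.length + i + 1)).map fun j => if j = i then c else l.getD j 0

theorem getD_setL (l : List ℕ) (i c j : ℕ) :
    (setL l i c).getD j 0 = if j = i then c else l.getD j 0 := by
  unfold setL
  by_cases h : j < l.length + i + 1
  · rw [List.getD_eq_getElem _ _ (by simpa using h)]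
    simp
  · rw [List.getD_eq_default _ _ (by simpa using h), if_neg (by omega),
      List.getD_eq_default _ _ (by omega)]

theorem mem_le_encode (l : List ℕ) (x : ℕ) (h : x ∈ l) : x ≤ encode l := by
  induction l with
  | nil => simp at h
  | cons a l ih =>
    rw [Encodable.encode_list_cons]
    rcases List.mem_cons.1 h with rfl | h
    · exact (Nat.left_le_pair _ _).trans (Nat.le_succ _)
    · exact (ih h).trans ((Nat.right_le_pair _ _).trans (Nat.le_succ _))

theorem getD_le (c k : ℕ) : (Denumerable.ofNat (List ℕ) c).getD k 0 ≤ c := by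
  by_cases h : k < (Denumerable.ofNat (List ℕ) c).length
  · rw [List.getD_eq_getElem _ _ h]
    have := mem_le_encode _ _ (List.getElem_mem h)
    rwa [Denumerable.encode_ofNat] at this
  · rw [List.getD_eq_default _ _ (by omega)]
    omega

section
variable (M : Model) (Rb : ℕ → ℕ → List M.D → Prop)

/-- The interpretation of the Henkin domain in a structure. -/
noncomputable def rho : ℕ → M.D
  | 0 => M.zero
  | n + 1 =>
    match n.unpair.1 with
    | 0 => (trm n.unpair.2.unpair.1).val M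
        (fun k => rho ((Denumerable.ofNat (List ℕ) n.unpair.2.unpair.2).getD k 0))
    | b + 1 => @Classical.epsilon M.D ⟨M.zero⟩ fun c =>
        ¬ (frm n.unpair.2.unpair.2.unpair.1).sat (M.setRel (Rb b))
          (update (fun k => rho ((Denumerable.ofNat (List ℕ)
            n.unpair.2.unpair.2.unpair.2).getD k 0)) n.unpair.2.unpair.1 c)
termination_by n => n
decreasing_by
  · exact Nat.lt_succ_of_le ((getD_le _ _).trans (Nat.lt_succ_iff.1 (up22 n)))
  · exact Nat.lt_succ_of_le ((getD_le _ _).trans ((Nat.unpair_right_le _).trans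
      (Nat.lt_succ_iff.1 (up22 n))))

/-- The assignment given by a list. -/
noncomputable def asn (l : List ℕ) : ℕ → M.D := fun k => rho M Rb (l.getD k 0)

theorem rho_zero : rho M Rb 0 = M.zero := by rw [rho]

theorem rho_dC (t : ℕ) (l : List ℕ) : rho M Rb (dC t l) = (trm t).val M (asn M Rb l) := by
  rw [dC, rho]
  simp
  rfl

theorem rho_wC (b i m : ℕ) (l : List ℕ) : rho M Rb (wC b i m l) =
    @Classical.epsilon M.D ⟨M.zero⟩ fun c =>
      ¬ (frm m).sat (M.setRel (Rb b)) (update (asn M Rb l) i c) := by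
  rw [wC, rho]
  simp
  rfl

theorem asn_setL (l : List ℕ) (i c : ℕ) :
    asn M Rb (setL l i c) = update (asn M Rb l) i (rho M Rb c) := by
  funext j
  simp only [asn, getD_setL, update_apply]
  split_ifs <;> rfl

theorem asn_nil : asn M Rb [] = fun _ => M.zero := by
  funext j
  simp [asn, rho_zero]

end

end Pool.Agent.K7.H50.TD
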