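import Pool.Agent.K7.H50.TD.Clause

set_option autoImplicit false

namespace Pool.Agent.K7.H50.TD
open Function Encodable

section
variable {B A : ℕ} {ms : List ℕ} {v : At → Bool} (hv : Good B A ms v)
include hv

theorem ok_refl (x : ℕ) : v (eA x x) = true := by
  have h := hv 0 x 0 0 0 [] [] []
  simp only [cls, List.forall_mem_cons] at h
  simpa using h.1

theorem ok_cong (x y : ℕ) (L : List (ℕ × ℕ)) (hL : ∀ p ∈ L, v (eA p.1 p.2) = true)
    (h1 : v (x, y, L.map Prod.fst) = true) : v (x, y, L.map Prod.snd) = true := by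
  have h := hv 0 x y 0 0 [] [] L
  simp only [cls, List.forall_mem_cons] at h
  obtain ⟨lit, hl, hl2⟩ := h.2.1
  simp only [eqs, List.mem_cons, List.mem_map] at hl
  rcases hl with rfl | rfl | ⟨p, hp, rfl⟩
  · simp [h1] at hl2
  · exact hl2
  · simp [hL p hp] at hl2

theorem ok_congd (x : ℕ) (L : List (ℕ × ℕ)) (hL : ∀ p ∈ L, v (eA p.1 p.2) = true) :
    v (eA (dC x (L.map Prod.fst)) (dC x (L.map Prod.snd))) = true := by
  have h := hv 0 x 0 0 0 [] [] L
  simp only [cls, List.forall_mem_cons] at h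
  obtain ⟨lit, hl, hl2⟩ := h.2.2.1
  simp only [eqs, List.mem_cons, List.mem_map] at hl
  rcases hl with rfl | ⟨p, hp, rfl⟩
  · exact hl2
  · simp [hL p hp] at hl2

theorem ok_rest (b x y z c : ℕ) (l r : List ℕ) :
    v (eA (dC (tVar x) l) (l.getD x 0)) = true ∧
    v (eA (dC 0 l) 0) = true ∧
    v (eA (dC (tSucc x) l) (dC (tSucc (tVar 0)) [dC x l])) = true ∧
    v (eA (dC (tExp x) l) (dC (tExp (tVar 0)) [dC x l])) = true ∧
    v (eA (dC (tAdd x y) l) (dC (tAdd (tVar 0) (tVar 1)) [dC x l, dC y l])) = true ∧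
    v (eA (dC (tMul b x y) l) (dC (tMul 0 (tVar 0) (tVar 1)) [dC x l, dC y l])) = true ∧
    v (b + 3, 0, l) = true ∧
    (v (b + 3, fEq x y, l) = true ↔ v (eA (dC x l) (dC y l)) = true) ∧
    (v (b + 3, fLe x y, l) = true ↔ v (1, 0, [dC x l, dC y l]) = true) ∧
    (v (3, fRel x r, l) = true ↔ v (2, x, dM r l) = true) ∧
    (v (b + 4, fRel x r, l) = true ↔
      v (3, ms.getD (Nat.pair x r.length) 0, dM r l) = true) ∧
    (v (b + 3, fNand x y, l) = true ↔ ¬ (v (b + 3, x, l) = true ∧ v (b + 3, y, l) = true)) ∧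
    (v (b + 3, fAll z x y, l) = true → v (b + 3, y, setL l x c) = true) ∧
    (v (b + 3, y, setL l x (wC b x y l)) = true → v (b + 3, fAll z x y, l) = true) ∧
    v (3, A, []) = true ∧ v (4, B, []) = false := by
  have h := hv b x y z c l r []
  simp only [cls, List.forall_mem_cons] at h
  simp only [List.mem_cons, List.not_mem_nil, or_false,
    exists_eq_or_imp, exists_eq_left] at h
  obtain ⟨-, -, -, h4, h5, h6, h7, h8, h9, h10, h11, h12, h13, h14, h15, h16, h17, h18, h19, h20,
    h21, h22, h23, h24, h25, -⟩ := h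
  refine ⟨h4, h5, h6, h7, h8, h9, h10, ?_, ?_, ?_, ?_, ?_, ?_, ?_, h24, h25⟩
  · cases h : v (b + 3, fEq x y, l) <;> simp_all
  · cases h : v (b + 3, fLe x y, l) <;> simp_all
  · cases h : v (3, fRel x r, l) <;> simp_all
  · generalize v (3, ms.getD (Nat.pair x r.length) 0, dM r l) = q at *
    cases h : v (b + 4, fRel x r, l) <;> simp_all
  · clear h4 h5 h6 h7 h8 h9 h10 h11 h12 h13 h14 h15 h16 h17 h18 h22 h23 h24 h25
    revert h19 h20 h21
    generalize v (b + 3, fNand x y, l) = p
    generalize v (b + 3, x, l) = q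
    generalize v (b + 3, y, l) = s
    revert p q s
    decide
  · intro h
    rcases h22 with h22 | h22
    · rw [h] at h22; simp at h22
    · exact h22
  · intro h
    rcases h23 with h23 | h23
    · exact h23
    · rw [h] at h23; simp at h23

theorem ok_euclid (x y z : ℕ) (h1 : v (eA x y) = true) (h2 : v (eA x z) = true) :
    v (eA y z) = true := by
  have := ok_cong hv 0 0 [(x, y), (x, z)] (by
    intro p hp
    simp only [List.mem_cons, List.not_mem_nil, or_false] at hp
    rcases hp with rfl | rfl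
    · exact h1
    · exact h2) (ok_refl hv x)
  exact this

theorem ok_symm (x y : ℕ) (h1 : v (eA x y) = true) : v (eA y x) = true :=
  ok_euclid hv x y x h1 (ok_refl hv x)

theorem ok_trans (x y z : ℕ) (h1 : v (eA x y) = true) (h2 : v (eA y z) = true) :
    v (eA x z) = true :=
  ok_euclid hv y x z (ok_symm hv x y h1) h2

/-- The equality of the Henkin domain. -/
@[reducible] def sd : Setoid ℕ where
  r x y := v (eA x y) = true
  iseqv := ⟨ok_refl hv, fun {x y} => ok_symm hv x y, fun {x y z} => ok_trans hv x y z⟩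

/-- The Henkin structure. -/
@[reducible] noncomputable def HM : Model where
  D := Quotient (sd hv)
  zero := Quotient.mk _ 0
  succ q := Quotient.mk _ (dC (tSucc (tVar 0)) [q.out])
  add p q := Quotient.mk _ (dC (tAdd (tVar 0) (tVar 1)) [p.out, q.out])
  mul p q := Quotient.mk _ (dC (tMul 0 (tVar 0) (tVar 1)) [p.out, q.out])
  exp q := Quotient.mk _ (dC (tExp (tVar 0)) [q.out])
  le p q := v (1, 0, [p.out, q.out]) = true
  rel i l := v (2, i, l.map Quotient.out) = true

/-- The class of an element. -/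
def mk (x : ℕ) : (HM hv).D := Quotient.mk (sd hv) x

theorem mk_eq (x y : ℕ) : mk hv x = mk hv y ↔ v (eA x y) = true :=
  ⟨fun h => Quotient.exact h, fun h => Quotient.sound h⟩

theorem out_mk (x : ℕ) : v (eA (mk hv x).out x) = true :=
  Quotient.exact (Quotient.out_eq (mk hv x))

theorem mk_out (q : (HM hv).D) : mk hv q.out = q := Quotient.out_eq q

theorem mk_d1 (t x : ℕ) : mk hv (dC t [(mk hv x).out]) = mk hv (dC t [x]) := by
  rw [mk_eq]
  have := ok_congd hv t [((mk hv x).out, x)] (by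
    intro p hp
    simp only [List.mem_cons, List.not_mem_nil, or_false] at hp
    subst hp
    exact out_mk hv x)
  exact this

theorem mk_d2 (t x y : ℕ) :
    mk hv (dC t [(mk hv x).out, (mk hv y).out]) = mk hv (dC t [x, y]) := by
  rw [mk_eq]
  have := ok_congd hv t [((mk hv x).out, x), ((mk hv y).out, y)] (by
    intro p hp
    simp only [List.mem_cons, List.not_mem_nil, or_false] at hp
    rcases hp with rfl | rfl
    · exact out_mk hv x
    · exact out_mk hv y)
  exact this

/-- The assignment of classes. -/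
def asm (l : List ℕ) : ℕ → (HM hv).D := fun k => mk hv (l.getD k 0)

theorem val_dC : ∀ (t : ℕ) (l : List ℕ), mk hv (dC t l) = (trm t).val (HM hv) (asm hv l) := by
  intro t
  induction t using Nat.strong_induction_on with
  | _ t ih =>
    intro l
    rcases tcases t with rfl | ⟨i, rfl⟩ | ⟨t, ht, rfl⟩ | ⟨t, ht, rfl⟩ | ⟨s, t, hs, ht, rfl⟩ |
      ⟨k, s, t, hs, ht, rfl⟩
    · rw [trm_zero]
      exact (mk_eq hv _ _).2 (ok_rest hv 0 0 0 0 0 l []).2.1
    · rw [trm_var]
      exact (mk_eq hv _ _).2 (ok_rest hv 0 i 0 0 0 l []).1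
    · rw [trm_succ]
      show _ = mk hv (dC (tSucc (tVar 0)) [((trm t).val (HM hv) (asm hv l)).out])
      rw [← ih t ht l, mk_d1]
      exact (mk_eq hv _ _).2 (ok_rest hv 0 t 0 0 0 l []).2.2.1
    · rw [trm_exp]
      show _ = mk hv (dC (tExp (tVar 0)) [((trm t).val (HM hv) (asm hv l)).out])
      rw [← ih t ht l, mk_d1]
      exact (mk_eq hv _ _).2 (ok_rest hv 0 t 0 0 0 l []).2.2.2.1
    · rw [trm_add]
      show _ = mk hv (dC (tAdd (tVar 0) (tVar 1)) [((trm s).val (HM hv) (asm hv l)).out,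
        ((trm t).val (HM hv) (asm hv l)).out])
      rw [← ih t ht l, ← ih s hs l, mk_d2]
      exact (mk_eq hv _ _).2 (ok_rest hv 0 s t 0 0 l []).2.2.2.2.1
    · rw [trm_mul]
      show _ = mk hv (dC (tMul 0 (tVar 0) (tVar 1)) [((trm s).val (HM hv) (asm hv l)).out,
        ((trm t).val (HM hv) (asm hv l)).out])
      rw [← ih t ht l, ← ih s hs l, mk_d2]
      exact (mk_eq hv _ _).2 (ok_rest hv k s t 0 0 l []).2.2.2.2.2.1

theorem cong_out (k i : ℕ) (l : List ℕ) :
    v (k, i, (l.map (mk hv)).map Quotient.out) = true ↔ v (k, i, l) = true := by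
  have h1 := ok_cong hv k i (l.map fun x => ((mk hv x).out, x)) (by
    intro p hp
    simp only [List.mem_map] at hp
    obtain ⟨x, _, rfl⟩ := hp
    exact out_mk hv x)
  have h2 := ok_cong hv k i (l.map fun x => (x, (mk hv x).out)) (by
    intro p hp
    simp only [List.mem_map] at hp
    obtain ⟨x, _, rfl⟩ := hp
    exact ok_symm hv _ _ (out_mk hv x))
  simp only [List.map_map] at h1 h2 ⊢
  have e1 : l.map (Prod.fst ∘ fun x => ((mk hv x).out, x)) = l.map (Quotient.out ∘ mk hv) := rfl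
  have e2 : l.map (Prod.snd ∘ fun x => ((mk hv x).out, x)) = l := by
    conv_rhs => rw [← List.map_id l]
    rfl
  have e3 : l.map (Prod.snd ∘ fun x => (x, (mk hv x).out)) = l.map (Quotient.out ∘ mk hv) := rfl
  have e4 : l.map (Prod.fst ∘ fun x => (x, (mk hv x).out)) = l := by
    conv_rhs => rw [← List.map_id l]
    rfl
  rw [e1, e2] at h1
  rw [e3, e4] at h2
  exact ⟨h1, h2⟩

theorem asm_setL (l : List ℕ) (i c : ℕ) :
    asm hv (setL l i c) = update (asm hv l) i (mk hv c) := by
  funext j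
  simp only [asm, getD_setL, update_apply]
  split_ifs <;> rfl

theorem truth_gen (b : ℕ) (R : ℕ → List (HM hv).D → Prop)
    (hR : ∀ (i : ℕ) (r l : List ℕ), v (b + 3, fRel i r, l) = true ↔
      R i ((r.map trm).map (Term.val (HM hv) (asm hv l)))) :
    ∀ (m : ℕ) (l : List ℕ), v (b + 3, m, l) = true ↔
      (frm m).sat ((HM hv).setRel R) (asm hv l) := by
  intro m
  induction m using Nat.strong_induction_on with
  | _ m ih =>
    intro l
    rcases fcases m with rfl | ⟨s, t, rfl⟩ | ⟨s, t, rfl⟩ | ⟨i, r, rfl⟩ | ⟨s, t, hs, ht, rfl⟩ |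
      ⟨k, i, m, hm, rfl⟩
    · rw [frm_zero, sat_eq_set]
      exact ⟨fun _ => rfl, fun _ => (ok_rest hv b 0 0 0 0 l []).2.2.2.2.2.2.1⟩
    · rw [frm_eq, sat_eq_set, ← val_dC, ← val_dC, mk_eq]
      exact (ok_rest hv b s t 0 0 l []).2.2.2.2.2.2.2.1
    · rw [frm_le, sat_le_set, ← val_dC, ← val_dC, (ok_rest hv b s t 0 0 l []).2.2.2.2.2.2.2.2.1]
      exact (cong_out hv 1 0 [dC s l, dC t l]).symm
    · rw [frm_rel, sat_rel_set]
      exact hR i r l
    · rw [frm_nand, (ok_rest hv b s t 0 0 l []).2.2.2.2.2.2.2.2.2.2.2.1, ih s hs l, ih t ht l]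
      rfl
    · rw [frm_all]
      constructor
      · intro h q
        have h1 := (ok_rest hv b i m k q.out l []).2.2.2.2.2.2.2.2.2.2.2.2.1 h
        rw [ih m hm, asm_setL, mk_out] at h1
        exact h1
      · intro h
        refine (ok_rest hv b i m k 0 l []).2.2.2.2.2.2.2.2.2.2.2.2.2.1 ?_
        rw [ih m hm, asm_setL]
        exact h _

theorem dM_mk (r l : List ℕ) :
    (dM r l).map (mk hv) = (r.map trm).map (Term.val (HM hv) (asm hv l)) := by
  rw [dM, List.map_map, List.map_map]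
  exact List.map_congr_left fun t _ => val_dC hv t l

theorem truth0 (m : ℕ) (l : List ℕ) :
    v (3, m, l) = true ↔ (frm m).sat (HM hv) (asm hv l) := by
  refine truth_gen hv 0 (HM hv).rel ?_ m l
  intro i r l
  rw [← dM_mk]
  show _ ↔ v (2, i, ((dM r l).map (mk hv)).map Quotient.out) = true
  rw [cong_out]
  exact (ok_rest hv 0 i 0 0 0 l r).2.2.2.2.2.2.2.2.2.1

theorem truth1 (m : ℕ) (l : List ℕ) :
    v (4, m, l) = true ↔ (frm m).sat ((HM hv).pull (tau ms)) (asm hv l) := by
  refine truth_gen hv 1 ((HM hv).pull (tau ms)).rel ?_ m l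
  intro i r l
  rw [show (1 + 3 : ℕ) = 0 + 4 from rfl, (ok_rest hv 0 i 0 0 0 l r).2.2.2.2.2.2.2.2.2.2.1, truth0,
    ← dM_mk]
  show _ ↔ (tau ms i ((dM r l).map (mk hv)).length).sat (HM hv)
    (fun k => ((dM r l).map (mk hv)).getD k (mk hv 0))
  have e1 : ((dM r l).map (mk hv)).length = r.length := by simp [dM]
  have e2 : (fun k => ((dM r l).map (mk hv)).getD k (mk hv 0)) = asm hv (dM r l) := by
    funext k
    rw [List.getD_map]; rfl
  rw [e1, e2]
  rfl

theorem complete : (frm A).sat (HM hv) (fun _ => (HM hv).zero) ∧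
    ¬ (frm B).sat ((HM hv).pull (tau ms)) (fun _ => (HM hv).zero) := by
  have h := (ok_rest hv 0 0 0 0 0 [] []).2.2.2.2.2.2.2.2.2.2.2.2.2.2
  have e : asm hv [] = fun _ => (HM hv).zero := by
    funext k
    simp only [asm, List.getD_nil]; rfl
  constructor
  · have := (truth0 hv A []).1 h.1
    rwa [e] at this
  · intro h2
    have := (truth1 hv B []).2 (by rw [e]; exact h2)
    rw [h.2] at this
    simp at this

end

/-- Definability in terms of unsatisfiability of the clauses. -/
theorem defs_iff (A B : Form) (hA : A.fv = ∅) (hB : B.fv = ∅) :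
    Defs A B ↔ ∃ ms : List ℕ, ¬ ∃ v : At → Bool, Good (cdF B) (cdF A) ms v := by
  constructor
  · rintro ⟨τ, hτ⟩
    refine ⟨(List.range ((B.syms.sup fun p => Nat.pair p.1 p.2) + 1)).map
      fun q => cdF (τ q.unpair.1 q.unpair.2), ?_⟩
    have htau : ∀ i n, (i, n) ∈ B.syms → tau ((List.range ((B.syms.sup fun p =>
        Nat.pair p.1 p.2) + 1)).map fun q => cdF (τ q.unpair.1 q.unpair.2)) i n =
        frm (cdF (τ i n)) := by
      intro i n hi
      have hlt : Nat.pair i n < (B.syms.sup fun p => Nat.pair p.1 p.2) + 1 :=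
        Nat.lt_succ_of_le (Finset.le_sup (f := fun p : ℕ × ℕ => Nat.pair p.1 p.2) hi)
      rw [tau, List.getD_eq_getElem _ _ (by simpa using hlt)]
      simp
    generalize (List.range ((B.syms.sup fun p =>
      Nat.pair p.1 p.2) + 1)).map (fun q => cdF (τ q.unpair.1 q.unpair.2)) = ms at *
    rintro ⟨v, hv⟩
    obtain ⟨h1, h2⟩ := complete hv
    rw [sat_cdF] at h1
    have h3 : ((HM hv).pull τ).Holds B := hτ _ ((holds_iff _ _ hA _).2 h1)
    apply h2
    refine (sat_cdF ((HM hv).pull (tau ms)) B _).2 ?_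
    refine (Form.sat_setRel_congr (HM hv) _ _ B ?_ _).1 (h3 fun _ => (HM hv).zero)
    intro i l hi
    rw [htau i l.length hi, sat_cdF]
  · rintro ⟨ms, hms⟩
    refine ⟨tau ms, fun M hM => ?_⟩
    by_contra hno
    apply hms
    refine sound M ms (cdF A) (cdF B) ((sat_cdF M A _).2 (hM _)) ?_
    intro h
    apply hno
    exact (holds_iff _ _ hB _).2 ((sat_cdF (M.pull (tau ms)) B _).1 h)

end Pool.Agent.K7.H50.TD
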