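import Mathlib

set_option autoImplicit false

/-!
# Definability between definitions of truth: definitions

First-order formulas in the language of arithmetic `0, S, +, ·, 2^x, ≤` with extra relation
symbols `(i, n)` (`n` is the arity), their structures, elementary arithmetic, definitions of
truth, and the definability preorder.
-/

namespace Pool.Agent.K7.H50.TD

/-- Terms of the language of arithmetic, over the variables `x_0, x_1, ...`. -/
inductive Term : Type
  | var (i : ℕ) : Term
  | zero : Term
  | succ (t : Term) : Term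
  | add (s t : Term) : Term
  | mul (s t : Term) : Term
  | exp (t : Term) : Term

/-- First-order formulas: `rel i ts` is the relation symbol of index `i` and arity `ts.length`
applied to the terms `ts`. -/
inductive Form : Type
  | eq (s t : Term) : Form
  | le (s t : Term) : Form
  | rel (i : ℕ) (ts : List Term) : Form
  | neg (φ : Form) : Form
  | and (φ ψ : Form) : Form
  | all (i : ℕ) (φ : Form) : Form

/-- `φ → ψ`. -/
def Form.imp (φ ψ : Form) : Form := .neg (.and φ (.neg ψ))

/-- `φ ∨ ψ`. -/
def Form.or (φ ψ : Form) : Form := .neg (.and (.neg φ) (.neg ψ))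

/-- The variables of a term. -/
def Term.vars : Term → Finset ℕ
  | .var i => {i}
  | .zero => ∅
  | .succ t => t.vars
  | .add s t => s.vars ∪ t.vars
  | .mul s t => s.vars ∪ t.vars
  | .exp t => t.vars

/-- The free variables of a formula. -/
def Form.fv : Form → Finset ℕ
  | .eq s t => s.vars ∪ t.vars
  | .le s t => s.vars ∪ t.vars
  | .rel _ ts => ts.foldr (fun t S => t.vars ∪ S) ∅
  | .neg φ => φ.fv
  | .and φ ψ => φ.fv ∪ ψ.fv
  | .all i φ => φ.fv.erase i

/-- The relation symbols `(index, arity)` of a formula (other than `=` and `≤`). -/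
def Form.syms : Form → Finset (ℕ × ℕ)
  | .eq _ _ => ∅
  | .le _ _ => ∅
  | .rel i ts => {(i, ts.length)}
  | .neg φ => φ.syms
  | .and φ ψ => φ.syms ∪ ψ.syms
  | .all _ φ => φ.syms

/-- Structures: a nonempty domain with an interpretation of all symbols. -/
structure Model : Type 1 where
  D : Type
  zero : D
  succ : D → D
  add : D → D → D
  mul : D → D → D
  exp : D → D
  le : D → D → Prop
  rel : ℕ → List D → Prop

/-- The value of a term under the assignment `v`. -/
def Term.val (M : Model) (v : ℕ → M.D) : Term → M.D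
  | .var i => v i
  | .zero => M.zero
  | .succ t => M.succ (t.val M v)
  | .add s t => M.add (s.val M v) (t.val M v)
  | .mul s t => M.mul (s.val M v) (t.val M v)
  | .exp t => M.exp (t.val M v)

/-- Satisfaction of a formula in `M` under the assignment `v`. -/
def Form.sat (M : Model) : (ℕ → M.D) → Form → Prop
  | v, .eq s t => s.val M v = t.val M v
  | v, .le s t => M.le (s.val M v) (t.val M v)
  | v, .rel i ts => M.rel i (ts.map (Term.val M v))
  | v, .neg φ => ¬ φ.sat M v
  | v, .and φ ψ => φ.sat M v ∧ ψ.sat M v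
  | v, .all i φ => ∀ x : M.D, φ.sat M (Function.update v i x)

/-- `M ⊨ φ`. -/
def Model.Holds (M : Model) (φ : Form) : Prop := ∀ v, φ.sat M v

/-- The value of the `n`-th numeral. -/
def Model.num (M : Model) : ℕ → M.D
  | 0 => M.zero
  | n + 1 => M.succ (M.num n)

/-- Bounded (`Δ₀`) formulas of the language of arithmetic. -/
inductive Bounded : Form → Prop
  | eq (s t : Term) : Bounded (.eq s t)
  | le (s t : Term) : Bounded (.le s t)
  | neg {φ : Form} : Bounded φ → Bounded (.neg φ)
  | and {φ ψ : Form} : Bounded φ → Bounded ψ → Bounded (.and φ ψ)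
  | ball {φ : Form} (i : ℕ) (t : Term) : i ∉ t.vars → Bounded φ →
      Bounded (.all i (Form.imp (.le (.var i) t) φ))

/-- `M` is a model of elementary arithmetic `EA = IΔ₀(exp)`. -/
structure IsEA (M : Model) : Prop where
  succ_ne_zero : ∀ x, M.succ x ≠ M.zero
  succ_inj : ∀ x y, M.succ x = M.succ y → x = y
  zero_or_succ : ∀ x, x = M.zero ∨ ∃ y, x = M.succ y
  add_zero : ∀ x, M.add x M.zero = x
  add_succ : ∀ x y, M.add x (M.succ y) = M.succ (M.add x y)
  mul_zero : ∀ x, M.mul x M.zero = M.zero
  mul_succ : ∀ x y, M.mul x (M.succ y) = M.add (M.mul x y) x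
  exp_zero : M.exp M.zero = M.succ M.zero
  exp_succ : ∀ x, M.exp (M.succ x) = M.add (M.exp x) (M.exp x)
  le_iff : ∀ x y, M.le x y ↔ ∃ z, M.add z x = y
  ind : ∀ φ : Form, Bounded φ → ∀ (v : ℕ → M.D) (i : ℕ),
    φ.sat M (Function.update v i M.zero) →
    (∀ x, φ.sat M (Function.update v i x) → φ.sat M (Function.update v i (M.succ x))) →
    ∀ x, φ.sat M (Function.update v i x)

/-- A sentence in a language extending the language of arithmetic by the finitely many relation
symbols of `L`. -/
structure Thy : Type where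
  L : Finset (ℕ × ℕ)
  ax : Form
  closed : ax.fv = ∅
  inL : ax.syms ⊆ L

/-- `α` is a definition of truth (`g` assigns their Gödel numbers to formulas): `α ⊢ EA`, and
some formula `Θ(x_0)` of the language of `α` has `α ⊢ Θ(⌜σ⌝) ↔ σ` for every sentence `σ` of
the language of arithmetic. -/
def InDEF (g : Form → ℕ) (α : Thy) : Prop :=
  (∀ M : Model, M.Holds α.ax → IsEA M) ∧
  ∃ Θ : Form, Θ.syms ⊆ α.L ∧ Θ.fv ⊆ {0} ∧
    ∀ σ : Form, σ.syms = ∅ → σ.fv = ∅ → ∀ M : Model, M.Holds α.ax →
      (Θ.sat M (fun _ => M.num (g σ)) ↔ M.Holds σ)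

/-- The structure obtained from `M` by the translation `τ`: the domain and the arithmetical
symbols are unchanged, and `rel i` of arity `n` is interpreted by the formula `τ i n` in the
variables `x_0, ..., x_{n-1}`. -/
def Model.pull (M : Model) (τ : ℕ → ℕ → Form) : Model where
  D := M.D
  zero := M.zero
  succ := M.succ
  add := M.add
  mul := M.mul
  exp := M.exp
  le := M.le
  rel := fun i l => (τ i l.length).sat M (fun k => l.getD k M.zero)

/-- `β` defines `α` (that is, `α ◁ β`): some translation `τ` of the relation symbols of `α`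
has `β ⊢ τ(α)`. -/
def Defines (β α : Thy) : Prop :=
  ∃ τ : ℕ → ℕ → Form,
    (∀ i n, (i, n) ∈ α.L → (τ i n).syms ⊆ β.L ∧ (τ i n).fv ⊆ Finset.range n) ∧
    ∀ M : Model, M.Holds β.ax → (M.pull τ).Holds α.ax

end Pool.Agent.K7.H50.TD
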