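import Pool.Agent.K7.H50.TD.Basic

set_option autoImplicit false

namespace Pool.Agent.K7.H50.TD
open Function

/-! ## Composition of translations -/

/-- Assign the values of `t 0, ..., t (c-1)` to the variables `x_s, ..., x_{s+c-1}`. -/
def asgs (s : ℕ) (t : ℕ → Term) : ℕ → Form → Form
  | 0, φ => φ
  | c + 1, φ => asg (s + c) (t c) (asgs s t c φ)

theorem sat_asgs (M : Model) (s : ℕ) (t : ℕ → Term) : ∀ (c : ℕ) (φ : Form) (v : ℕ → M.D),
    (∀ k < c, ∀ j < c, s + j ∉ (t k).vars) →
    ((asgs s t c φ).sat M v ↔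
      φ.sat M (fun j => if s ≤ j ∧ j < s + c then (t (j - s)).val M v else v j))
  | 0, φ, v, _ => by
    have : (fun j => if s ≤ j ∧ j < s + 0 then (t (j - s)).val M v else v j) = v := by
      funext k; rw [if_neg]; omega
    rw [this]; rfl
  | c + 1, φ, v, h => by
    rw [asgs, sat_asg _ _ _ _ _ (h c (by omega) c (by omega)),
      sat_asgs M s t c φ _ fun k hk j hj => h k (by omega) j (by omega)]
    have : (fun j => if s ≤ j ∧ j < s + c then
        (t (j - s)).val M (update v (s + c) ((t c).val M v)) else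
        update v (s + c) ((t c).val M v) j) =
        (fun j => if s ≤ j ∧ j < s + (c + 1) then (t (j - s)).val M v else v j) := by
      funext j
      by_cases hj : s ≤ j ∧ j < s + c
      · rw [if_pos hj, if_pos (by omega)]
        refine Term.val_congr M _ _ _ fun i hi => update_of_ne ?_ _ _
        rintro rfl
        exact h (j - s) (by omega) c (by omega) hi
      · rw [if_neg hj]
        by_cases h2 : j = s + c
        · subst h2
          simp
        · rw [update_of_ne h2, if_neg (by omega)]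
    rw [this]

/-- A bound for the variables of a list of terms. -/
def bd (ts : List Term) : ℕ := (ts.foldr (fun (t : Term) S => t.vars ∪ S) ∅).sup id + 1

theorem lt_bd {ts : List Term} {t : Term} (ht : t ∈ ts) {i : ℕ} (hi : i ∈ t.vars) : i < bd ts := by
  have := Finset.le_sup (f := id) (vars_sub_foldr ts t ht hi)
  unfold bd
  simp only [id] at this
  omega

/-- `φ(ts)`. -/
def inst (ts : List Term) (φ : Form) : Form :=
  asgs (bd ts + ts.length + (φ.fv.sup id + 1)) (fun k => ts.getD k .zero) ts.length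
    (asgs 0 (fun k => if k < ts.length then .var (bd ts + ts.length + (φ.fv.sup id + 1) + k)
      else .zero) (bd ts + ts.length + (φ.fv.sup id + 1)) φ)

theorem sat_inst (M : Model) (ts : List Term) (φ : Form) (v : ℕ → M.D) :
    (inst ts φ).sat M v ↔ φ.sat M (fun k => (ts.map (Term.val M v)).getD k M.zero) := by
  unfold inst
  set m := bd ts + ts.length + (φ.fv.sup id + 1) with hm
  rw [sat_asgs, sat_asgs]
  · apply Form.sat_congr
    intro j hj
    have hjm : j < m := by
      have := Finset.le_sup (f := id) hj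
      simp only [id] at this
      omega
    rw [if_pos (by omega)]
    simp only [Nat.sub_zero]
    by_cases h : j < ts.length
    · rw [if_pos h]
      simp only [Term.val]
      rw [if_pos (by omega)]
      simp [h]
    · rw [if_neg h]
      simp only [Term.val]
      rw [List.getD_eq_default]
      simpa using h
  · intro k _ j _ hj
    split_ifs at hj with h
    · simp only [Term.vars, Finset.mem_singleton] at hj
      omega
    · simp [Term.vars] at hj
  · intro k hk j _ hj
    have h1 : ts.getD k .zero ∈ ts := by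
      rw [List.getD_eq_getElem _ _ hk]
      exact List.getElem_mem hk
    have := lt_bd h1 hj
    omega

/-- Apply a translation to a formula. -/
def Form.tr (τ : ℕ → ℕ → Form) : Form → Form
  | .eq s t => .eq s t
  | .le s t => .le s t
  | .rel i ts => inst ts (τ i ts.length)
  | .neg φ => .neg (φ.tr τ)
  | .and φ ψ => .and (φ.tr τ) (ψ.tr τ)
  | .all i φ => .all i (φ.tr τ)

theorem sat_tr (M : Model) (τ : ℕ → ℕ → Form) (φ : Form) : ∀ v : ℕ → M.D,
    (φ.tr τ).sat M v ↔
      φ.sat (M.setRel fun i l => (τ i l.length).sat M (fun k => l.getD k M.zero)) v := by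
  induction φ with
  | eq s t =>
    intro v
    rw [sat_eq_set]; rfl
  | le s t =>
    intro v
    rw [sat_le_set]; rfl
  | rel i ts =>
    intro v
    rw [sat_rel_set, List.length_map]
    exact sat_inst M ts _ v
  | neg φ ih =>
    intro v
    exact not_congr (ih v)
  | and φ ψ ih1 ih2 =>
    intro v
    exact and_congr (ih1 v) (ih2 v)
  | all i φ ih =>
    intro v
    exact forall_congr' fun x => ih _

theorem Defs.trans {A B C : Form} (h1 : Defs A B) (h2 : Defs B C) : Defs A C := by
  obtain ⟨τ, hτ⟩ := h1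
  obtain ⟨σ, hσ⟩ := h2
  refine ⟨fun i n => (σ i n).tr τ, fun M hM => ?_⟩
  have h := hσ _ (hτ M hM)
  intro v
  refine (Form.sat_setRel_congr M _ _ C ?_ v).1 (h v)
  intro i l _
  exact (sat_tr M τ _ _).symm

theorem Defines.trans {A B C : Thy} (h1 : Defines A B) (h2 : Defines B C) : Defines A C :=
  defines_of_defs ((defs_of_defines h1).trans (defs_of_defines h2))

/-! ## The ideal -/

theorem Defs.mono {A A' B : Form} (h : ∀ M : Model, M.Holds A' → M.Holds A) (hd : Defs A B) :
    Defs A' B := by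
  obtain ⟨τ, hτ⟩ := hd
  exact ⟨τ, fun M hM => hτ M (h M hM)⟩

theorem Defs.cases {A A₁ A₂ B θ : Form} (hθ : θ.fv = ∅)
    (h1 : ∀ M : Model, M.Holds A → M.Holds θ → M.Holds A₁)
    (h2 : ∀ M : Model, M.Holds A → ¬ M.Holds θ → M.Holds A₂)
    (hd1 : Defs A₁ B) (hd2 : Defs A₂ B) : Defs A B := by
  obtain ⟨τ, hτ⟩ := hd1
  obtain ⟨σ, hσ⟩ := hd2
  refine ⟨fun i n => .and (Form.imp θ (τ i n)) (Form.imp (.neg θ) (σ i n)), fun M hM => ?_⟩
  by_cases hc : M.Holds θ
  · have h := hτ M (h1 M hM hc)
    intro v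
    refine (Form.sat_setRel_congr M _ _ B ?_ v).1 (h v)
    intro i l _
    have hθ' := hc fun k => l.getD k M.zero
    simp only [Form.sat, Form.sat_imp]
    tauto
  · have h := hσ M (h2 M hM hc)
    intro v
    refine (Form.sat_setRel_congr M _ _ B ?_ v).1 (h v)
    intro i l _
    have hθ' : ¬ θ.sat M fun k => l.getD k M.zero := fun hs =>
      hc ((holds_iff M θ hθ _).2 hs)
    simp only [Form.sat, Form.sat_imp]
    tauto

/-- Arithmetical sentences. -/
structure AS (θ : Form) : Prop where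
  syms : θ.syms = ∅
  fv : θ.fv = ∅

theorem AS.and {θ ψ : Form} (h : AS θ) (h' : AS ψ) : AS (.and θ ψ) :=
  ⟨by simp [Form.syms, h.syms, h'.syms], by simp [Form.fv, h.fv, h'.fv]⟩

theorem AS.neg {θ : Form} (h : AS θ) : AS (.neg θ) :=
  ⟨by simp [Form.syms, h.syms], by simp [Form.fv, h.fv]⟩

theorem holds_and (M : Model) (φ ψ : Form) : M.Holds (.and φ ψ) ↔ M.Holds φ ∧ M.Holds ψ :=
  forall_and

theorem holds_neg (M : Model) (φ : Form) (h : φ.fv = ∅) : M.Holds (.neg φ) ↔ ¬ M.Holds φ := by
  have h' : (Form.neg φ).fv = ∅ := h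
  rw [holds_iff M _ h (fun _ => M.zero), holds_iff M _ h' (fun _ => M.zero)]
  rfl

theorem holds_or (M : Model) (φ ψ : Form) (h : φ.fv = ∅) (h' : ψ.fv = ∅) :
    M.Holds (.or φ ψ) ↔ M.Holds φ ∨ M.Holds ψ := by
  have h'' : (Form.or φ ψ).fv = ∅ := by simp [Form.or, Form.fv, h, h']
  rw [holds_iff M _ h (fun _ => M.zero), holds_iff M _ h' (fun _ => M.zero),
    holds_iff M _ h'' (fun _ => M.zero), Form.sat_or]

/-- The sentence `θ` lies in the ideal of the pair `α, β`. -/
def Dn (α β : Thy) (θ : Form) : Prop := Defs (.and α.ax θ) β.ax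

/-- A bound for the indices of the symbols of `α`. -/
def bN (α : Thy) : ℕ := α.L.sup Prod.fst + 1

theorem lt_bN {α : Thy} {p : ℕ × ℕ} (h : p ∈ α.L) : p.1 < bN α := by
  have := Finset.le_sup (f := Prod.fst) h
  unfold bN
  omega

/-- The definition of truth `α ∧ (β' ∨ θ)`, where `β'` is a disjoint copy of `β`. -/
def gam (α β : Thy) (θ : Form) (hθ : AS θ) : Thy where
  L := α.L ∪ β.L.image fun p => (p.1 + bN α, p.2)
  ax := .and α.ax (.or (β.ax.shift (bN α)) θ)
  closed := by simp [Form.or, Form.fv, Form.fv_shift, hθ.fv, α.closed, β.closed]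
  inL := by
    simp only [Form.or, Form.syms, Form.syms_shift, hθ.syms, Finset.union_empty]
    exact Finset.union_subset_union α.inL (Finset.image_subset_image β.inL)

theorem holds_gam (α β : Thy) (θ : Form) (hθ : AS θ) (M : Model) :
    M.Holds (gam α β θ hθ).ax ↔
      M.Holds α.ax ∧ ((M.setRel fun i l => M.rel (i + bN α) l).Holds β.ax ∨ M.Holds θ) := by
  show M.Holds (.and α.ax (.or (β.ax.shift (bN α)) θ)) ↔ _
  rw [holds_and, holds_or _ _ _ (by rw [Form.fv_shift]; exact β.closed) hθ.fv]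
  have : M.Holds (β.ax.shift (bN α)) ↔ (M.setRel fun i l => M.rel (i + bN α) l).Holds β.ax :=
    forall_congr' fun v => Form.sat_shift M _ _ v
  rw [this]

theorem gam_inDEF (g : Form → ℕ) (α β : Thy) (hα : InDEF g α) (θ : Form) (hθ : AS θ) :
    InDEF g (gam α β θ hθ) := by
  obtain ⟨h1, Θ, h2, h3, h4⟩ := hα
  refine ⟨fun M hM => h1 M ((holds_gam α β θ hθ M).1 hM).1, Θ,
    h2.trans Finset.subset_union_left, h3, fun σ hσ hσ' M hM =>
      h4 σ hσ hσ' M ((holds_gam α β θ hθ M).1 hM).1⟩

/-- Logical consequence implies definability. -/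
theorem defs_of_imp {A B : Form} (h : ∀ M : Model, M.Holds A → M.Holds B) : Defs A B := by
  refine ⟨idF, fun M hM => ?_⟩
  intro v
  refine (Form.sat_setRel_congr M M.rel _ B ?_ v).1 (h M hM v)
  intro i l _
  exact (sat_idF M i l).symm

theorem gam_defines_left (α β : Thy) (θ : Form) (hθ : AS θ) : Defines (gam α β θ hθ) α :=
  defines_of_defs (defs_of_imp fun M hM => ((holds_gam α β θ hθ M).1 hM).1)

theorem defines_gam (α β : Thy) (h : Defines β α) (θ : Form) (hθ : AS θ) :
    Defines β (gam α β θ hθ) := by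
  obtain ⟨τ, hτ⟩ := defs_of_defines h
  refine defines_of_defs ⟨fun i n => if i < bN α then τ i n else idF (i - bN α) n,
    fun M hM => (holds_gam α β θ hθ _).2 ⟨?_, Or.inl ?_⟩⟩
  · intro v
    refine (Form.sat_setRel_congr M _ _ α.ax ?_ v).1 (hτ M hM v)
    intro i l hi
    have := lt_bN (α.inL hi)
    simp only at this
    show Form.sat M (fun k => l.getD k M.zero) (τ i l.length) ↔
      Form.sat M (fun k => l.getD k M.zero)
        (if i < bN α then τ i l.length else idF (i - bN α) l.length)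
    rw [if_pos this]
  · intro v
    refine (Form.sat_setRel_congr M M.rel _ β.ax ?_ v).1 (hM v)
    intro i l _
    show M.rel i l ↔ Form.sat M (fun k => l.getD k M.zero)
      (if i + bN α < bN α then τ (i + bN α) l.length else idF (i + bN α - bN α) l.length)
    rw [if_neg (by omega), Nat.add_sub_cancel]
    exact (sat_idF M i l).symm

theorem dn_of_defines (α β : Thy) (θ θ' : Form) (hθ : AS θ) (hθ' : AS θ')
    (h : Defines (gam α β θ' hθ') (gam α β θ hθ)) : Dn α β (.and θ' (.neg θ)) := by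
  obtain ⟨τ, hτ⟩ := defs_of_defines h
  refine ⟨fun i n => τ (i + bN α) n, fun M hM => ?_⟩
  rw [holds_and, holds_and, holds_neg _ _ hθ.fv] at hM
  obtain ⟨h1, h2, h3⟩ := hM
  have := hτ M ((holds_gam α β θ' hθ' M).2 ⟨h1, Or.inr h2⟩)
  rw [holds_gam] at this
  rcases this.2 with h4 | h4
  · exact h4
  · exact absurd (fun v => (Form.sat_arith M _ θ hθ.syms v).1 (h4 v)) h3

/-- If the interval is finite and nontrivial, the ideal has an atom. -/
theorem exists_atom (g : Form → ℕ) (α β : Thy) (hα : InDEF g α) (hαβ : Defines β α)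
    (hfin : ∃ l : List Thy, ∀ γ : Thy, InDEF g γ → Defines γ α → Defines β γ →
      ∃ δ ∈ l, Defines δ γ ∧ Defines γ δ)
    (h0 : ¬ Defines α β) :
    ∃ θ, AS θ ∧ ¬ Dn α β θ ∧ ∀ ψ, AS ψ → Dn α β (.and θ ψ) ∨ Dn α β (.and θ (.neg ψ)) := by
  by_contra hna
  push Not at hna
  have hverum : AS (.eq .zero .zero) := ⟨rfl, rfl⟩
  have hD0 : ¬ Dn α β (.eq .zero .zero) := by
    intro h
    refine h0 (defines_of_defs (Defs.mono (fun M hM => ?_) h))
    rw [holds_and]
    exact ⟨hM, fun v => rfl⟩
  choose ψ hψ hψ1 hψ2 using hna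
  let sq : ℕ → {θ : Form // AS θ ∧ ¬ Dn α β θ} := fun n =>
    Nat.rec ⟨_, hverum, hD0⟩
      (fun _ p => ⟨.and p.1 (ψ p.1 p.2.1 p.2.2), p.2.1.and (hψ _ _ _), hψ1 _ _ _⟩) n
  have hsq : ∀ n, (sq (n + 1)).1 = .and (sq n).1 (ψ (sq n).1 (sq n).2.1 (sq n).2.2) := fun n => rfl
  have hdec : ∀ (j k : ℕ), j ≤ k → ∀ M : Model, M.Holds (sq k).1 → M.Holds (sq j).1 := by
    intro j k hjk M
    induction k, hjk using Nat.le_induction with
    | base => exact id
    | succ k _ ih =>
      intro h
      rw [hsq, holds_and] at h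
      exact ih h.1
  obtain ⟨l, hl⟩ := hfin
  have hex : ∀ k, ∃ δ : Thy, δ ∈ l ∧ Defines δ (gam α β (sq k).1 (sq k).2.1) ∧
      Defines (gam α β (sq k).1 (sq k).2.1) δ := by
    intro k
    obtain ⟨δ, h1, h2⟩ := hl (gam α β (sq k).1 (sq k).2.1) (gam_inDEF g α β hα _ _)
      (gam_defines_left α β _ _) (defines_gam α β hαβ _ _)
    exact ⟨δ, h1, h2⟩
  choose δ hδ hδ1 hδ2 using hex
  have hfin' : ¬ Injective fun k => (⟨δ k, hδ k⟩ : {x // x ∈ l}) := by
    intro hinj
    have : Finite {x // x ∈ l} := List.finite_toSet l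
    exact not_injective_infinite_finite _ hinj
  have hkey : ∀ j k, j < k → δ j = δ k → False := by
    intro j k hjk he
    have h1 : Defines (gam α β (sq j).1 (sq j).2.1) (gam α β (sq k).1 (sq k).2.1) :=
      (hδ2 j).trans (he ▸ hδ1 k)
    have h2 := dn_of_defines α β _ _ _ _ h1
    refine hψ2 (sq j).1 (sq j).2.1 (sq j).2.2 (Defs.mono (fun M hM => ?_) h2)
    rw [holds_and, holds_and, holds_neg _ _ (hψ _ _ _).fv] at hM
    rw [holds_and, holds_and, holds_neg _ _ (sq k).2.1.fv]
    refine ⟨hM.1, hM.2.1, fun h3 => hM.2.2 ?_⟩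
    have := hdec (j + 1) k hjk M h3
    rw [hsq, holds_and] at this
    exact this.2
  apply hfin'
  intro j k he
  have he' : δ j = δ k := congrArg Subtype.val he
  rcases lt_trichotomy j k with h | h | h
  · exact (hkey j k h he').elim
  · exact h
  · exact (hkey k j h he'.symm).elim

end Pool.Agent.K7.H50.TD
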