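import Pool.Agent.K7.H50.TD.Complete

set_option autoImplicit false

namespace Pool.Agent.K7.H50.TD
open Function Encodable

section
variable {γ : Type} [Primcodable γ]

theorem p_pair {f g : γ → ℕ} (hf : Primrec f) (hg : Primrec g) :
    Primrec fun w => Nat.pair (f w) (g w) := Primrec₂.natPair.comp hf hg

theorem p_succ {f : γ → ℕ} (hf : Primrec f) : Primrec fun w => f w + 1 := Primrec.succ.comp hf

theorem p_add {f g : γ → ℕ} (hf : Primrec f) (hg : Primrec g) :
    Primrec fun w => f w + g w := Primrec.nat_add.comp hf hg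

theorem p_cons {σ : Type} [Primcodable σ] {f : γ → σ} {g : γ → List σ} (hf : Primrec f)
    (hg : Primrec g) : Primrec fun w => f w :: g w := Primrec.list_cons.comp hf hg

theorem p_tVar {f : γ → ℕ} (hf : Primrec f) : Primrec fun w => tVar (f w) :=
  p_succ (p_pair (Primrec.const 0) hf)

theorem p_tSucc {f : γ → ℕ} (hf : Primrec f) : Primrec fun w => tSucc (f w) :=
  p_succ (p_pair (Primrec.const 1) hf)

theorem p_tExp {f : γ → ℕ} (hf : Primrec f) : Primrec fun w => tExp (f w) :=
  p_succ (p_pair (Primrec.const 2) hf)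

theorem p_tAdd {f g : γ → ℕ} (hf : Primrec f) (hg : Primrec g) :
    Primrec fun w => tAdd (f w) (g w) :=
  p_succ (p_pair (Primrec.const 3) (p_pair hf hg))

theorem p_tMul {k f g : γ → ℕ} (hk : Primrec k) (hf : Primrec f) (hg : Primrec g) :
    Primrec fun w => tMul (k w) (f w) (g w) :=
  p_succ (p_pair (p_add hk (Primrec.const 4)) (p_pair hf hg))

theorem p_fEq {f g : γ → ℕ} (hf : Primrec f) (hg : Primrec g) :
    Primrec fun w => fEq (f w) (g w) :=
  p_succ (p_pair (Primrec.const 0) (p_pair hf hg))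

theorem p_fLe {f g : γ → ℕ} (hf : Primrec f) (hg : Primrec g) :
    Primrec fun w => fLe (f w) (g w) :=
  p_succ (p_pair (Primrec.const 1) (p_pair hf hg))

theorem p_fNand {f g : γ → ℕ} (hf : Primrec f) (hg : Primrec g) :
    Primrec fun w => fNand (f w) (g w) :=
  p_succ (p_pair (Primrec.const 3) (p_pair hf hg))

theorem p_fAll {k f g : γ → ℕ} (hk : Primrec k) (hf : Primrec f) (hg : Primrec g) :
    Primrec fun w => fAll (k w) (f w) (g w) :=
  p_succ (p_pair (p_add hk (Primrec.const 4)) (p_pair hf hg))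

theorem p_fRel {f : γ → ℕ} {r : γ → List ℕ} (hf : Primrec f) (hr : Primrec r) :
    Primrec fun w => fRel (f w) (r w) :=
  p_succ (p_pair (Primrec.const 2) (p_pair hf (Primrec.encode.comp hr)))

theorem p_dC {f : γ → ℕ} {r : γ → List ℕ} (hf : Primrec f) (hr : Primrec r) :
    Primrec fun w => dC (f w) (r w) :=
  p_succ (p_pair (Primrec.const 0) (p_pair hf (Primrec.encode.comp hr)))

theorem p_wC {b i m : γ → ℕ} {r : γ → List ℕ} (hb : Primrec b) (hi : Primrec i) (hm : Primrec m)
    (hr : Primrec r) : Primrec fun w => wC (b w) (i w) (m w) (r w) :=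
  p_succ (p_pair (p_succ hb) (p_pair hi (p_pair hm (Primrec.encode.comp hr))))

theorem p_getD {f : γ → ℕ} {r : γ → List ℕ} (hr : Primrec r) (hf : Primrec f) :
    Primrec fun w => (r w).getD (f w) 0 := (Primrec.list_getD 0).comp hr hf

theorem p_length {r : γ → List ℕ} (hr : Primrec r) :
    Primrec fun w => (r w).length := Primrec.list_length.comp hr

theorem p_map {σ τ : Type} [Primcodable σ] [Primcodable τ] {F : σ → τ} {r : γ → List σ}
    (hF : Primrec F) (hr : Primrec r) : Primrec fun w => (r w).map F :=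
  Primrec.list_map hr (hF.comp Primrec.snd).to₂

theorem p_eA {f g : γ → ℕ} (hf : Primrec f) (hg : Primrec g) :
    Primrec fun w => eA (f w) (g w) :=
  Primrec.pair (Primrec.const 0) (Primrec.pair (Primrec.const 0)
    (p_cons hf (p_cons hg (Primrec.const []))))

theorem p_eqs {L : γ → List (ℕ × ℕ)} (hL : Primrec L) : Primrec fun w => eqs (L w) :=
  p_map (F := fun p : ℕ × ℕ => (eA p.1 p.2, false))
    (Primrec.pair (p_eA Primrec.fst Primrec.snd) (Primrec.const false)) hL

theorem p_dM {r l : γ → List ℕ} (hr : Primrec r) (hl : Primrec l) :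
    Primrec fun w => dM (r w) (l w) :=
  Primrec.list_map hr (p_dC (γ := γ × ℕ) Primrec.snd (hl.comp Primrec.fst)).to₂

theorem p_setL {i c : γ → ℕ} {l : γ → List ℕ} (hl : Primrec l) (hi : Primrec i)
    (hc : Primrec c) : Primrec fun w => setL (l w) (i w) (c w) := by
  unfold setL
  refine Primrec.list_map (Primrec.list_range.comp (p_succ (p_add (p_length hl) hi))) ?_
  refine Primrec.ite ?_ ?_ ?_
  · exact Primrec.eq.comp Primrec.snd (hi.comp Primrec.fst)
  · exact hc.comp Primrec.fst
  · exact p_getD (hl.comp Primrec.fst) Primrec.snd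

theorem p_cls (B : ℕ) {A b x y z c : γ → ℕ} {ms l r : γ → List ℕ} {L : γ → List (ℕ × ℕ)}
    (hA : Primrec A) (hms : Primrec ms) (hb : Primrec b) (hx : Primrec x) (hy : Primrec y)
    (hz : Primrec z) (hc : Primrec c) (hl : Primrec l) (hr : Primrec r) (hL : Primrec L) :
    Primrec fun w => cls B (A w) (ms w) (b w) (x w) (y w) (z w) (c w) (l w) (r w) (L w) := by
  unfold cls
  repeat' (first
    | assumption
    | exact Primrec.const _
    | exact p_map Primrec.fst ‹_›
    | exact p_map Primrec.snd ‹_›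
    | with_reducible apply p_cons
    | with_reducible apply p_eA
    | with_reducible apply p_eqs
    | with_reducible apply p_dC
    | with_reducible apply p_dM
    | with_reducible apply p_setL
    | with_reducible apply p_wC
    | with_reducible apply p_tVar
    | with_reducible apply p_tSucc
    | with_reducible apply p_tExp
    | with_reducible apply p_tAdd
    | with_reducible apply p_tMul
    | with_reducible apply p_fEq
    | with_reducible apply p_fLe
    | with_reducible apply p_fNand
    | with_reducible apply p_fAll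
    | with_reducible apply p_fRel
    | with_reducible apply p_getD
    | with_reducible apply p_length
    | with_reducible apply p_pair
    | with_reducible apply p_add
    | with_reducible apply Primrec.pair)

end

/-- The index type of the clauses. -/
abbrev Ix : Type := ℕ × ℕ × ℕ × ℕ × ℕ × List ℕ × List ℕ × List (ℕ × ℕ)

/-- The clauses as a sequence. -/
def cnf (B : ℕ) (inp : ℕ × List ℕ) (j : ℕ) : List (List (At × Bool)) :=
  (fun w : Ix => cls B inp.1 inp.2 w.1 w.2.1 w.2.2.1 w.2.2.2.1 w.2.2.2.2.1 w.2.2.2.2.2.1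
    w.2.2.2.2.2.2.1 w.2.2.2.2.2.2.2) (Denumerable.ofNat Ix j)

theorem p_cnf (B : ℕ) : Primrec₂ (cnf B) := by
  have h0 : Primrec fun q : (ℕ × List ℕ) × ℕ => Denumerable.ofNat Ix q.2 :=
    (Primrec.ofNat Ix).comp Primrec.snd
  have h1 := Primrec.snd.comp h0
  have h2 := Primrec.snd.comp h1
  have h3 := Primrec.snd.comp h2
  have h4 := Primrec.snd.comp h3
  have h5 := Primrec.snd.comp h4
  have h6 := Primrec.snd.comp h5
  have h7 := Primrec.snd.comp h6
  exact p_cls B (γ := (ℕ × List ℕ) × ℕ) (Primrec.fst.comp Primrec.fst)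
    (Primrec.snd.comp Primrec.fst) (Primrec.fst.comp h0) (Primrec.fst.comp h1)
    (Primrec.fst.comp h2) (Primrec.fst.comp h3) (Primrec.fst.comp h4) (Primrec.fst.comp h5)
    (Primrec.fst.comp h6) h7

theorem good_iff (B A : ℕ) (ms : List ℕ) (v : At → Bool) :
    Good B A ms v ↔ ∀ j, ∀ C ∈ cnf B (A, ms) j, ∃ lit ∈ C, v lit.1 = lit.2 := by
  constructor
  · intro h j
    exact h _ _ _ _ _ _ _ _
  · intro h b x y z c l r L
    have := h (encode ((b, x, y, z, c, l, r, L) : Ix))
    simpa only [cnf, Denumerable.ofNat_encode] using this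

theorem re_defs (B : Form) (hB : B.fv = ∅) (F : ℕ → Form) (hF : ∀ n, (F n).fv = ∅)
    (hp : Primrec fun n => cdF (F n)) : REPred fun n => Defs (F n) B := by
  have h1 : PrimrecRel fun (n q : ℕ) => RR (cnf (cdF B))
      (cdF (F n), Denumerable.ofNat (List ℕ) q.unpair.1) q.unpair.2 :=
    (RR_prim _ (p_cnf (cdF B))).comp
      (f := fun x : ℕ × ℕ => (cdF (F x.1), Denumerable.ofNat (List ℕ) x.2.unpair.1))
      (g := fun x : ℕ × ℕ => x.2.unpair.2)
      (Primrec.pair (hp.comp Primrec.fst) ((Primrec.ofNat (List ℕ)).comp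
        (Primrec.fst.comp (Primrec.unpair.comp Primrec.snd))))
      (Primrec.snd.comp (Primrec.unpair.comp Primrec.snd))
  refine (re_of_prim h1).of_eq fun n => ?_
  rw [defs_iff (F n) B (hF n) hB]
  constructor
  · rintro ⟨q, hq⟩
    refine ⟨Denumerable.ofNat (List ℕ) q.unpair.1, ?_⟩
    simp only [good_iff]
    exact (RR_iff _ _).2 ⟨_, hq⟩
  · rintro ⟨ms, hms⟩
    simp only [good_iff] at hms
    obtain ⟨N, hN⟩ := (RR_iff _ _).1 hms
    refine ⟨Nat.pair (encode ms) N, ?_⟩
    simpa only [Nat.unpair_pair, Denumerable.ofNat_encode] using hN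

end Pool.Agent.K7.H50.TD
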