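import Pool.Agent.K7.H50.TD.Arith

set_option autoImplicit false

namespace Pool.Agent.K7.H50.TD
open Function Encodable

/-- The data of a Diophantine representation. -/
structure Rp (p : ℕ → Prop) where
  k : ℕ
  s : Term
  t : Term
  hv : ∀ i ∈ s.vars ∪ t.vars, i = 0 ∨ (2 ≤ i ∧ i < k + 2)
  hp : ∀ n, p n ↔ ∃ y : ℕ → ℕ, s.nval (asg0 n y) = t.nval (asg0 n y)

theorem exists_rp (p : ℕ → Prop) (hp : REPred p) : Nonempty (Rp p) := by
  obtain ⟨k, s, t, h1, h2⟩ := rep p hp
  exact ⟨⟨k, s, t, h1, h2⟩⟩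

/-- The formula saying that some witness for `x_0` is bounded by `x_1`. -/
def Rp.F {p : ℕ → Prop} (r : Rp p) : Form := exB r.k (.eq r.s r.t)

theorem Rp.sat_of {p : ℕ → Prop} (r : Rp p) {n : ℕ} (hn : p n) : ∃ N : ℕ, ∀ M : Model, IsEA M →
    ∀ v : ℕ → M.D, v 0 = M.num n → M.le (M.num N) (v 1) → r.F.sat M v := by
  obtain ⟨y, hy⟩ := (r.hp n).1 hn
  refine ⟨(Finset.range r.k).sup y, fun M hM v h0 h1 => ?_⟩
  rw [Rp.F, sat_exB]
  refine ⟨fun j => M.num (y j), fun j hj => ?_, ?_⟩
  · exact le_of_num_le hM _ _ (Finset.le_sup (f := y) (Finset.mem_range.2 hj)) _ h1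
  · have key : ∀ t : Term, t.vars ⊆ r.s.vars ∪ r.t.vars →
        t.val M (fun i => if 2 ≤ i ∧ i < r.k + 2 then M.num (y (i - 2)) else v i) =
        M.num (t.nval (asg0 n y)) := by
      intro t ht
      refine val_num hM t _ _ fun i hi => ?_
      rcases r.hv i (ht hi) with rfl | h2
      · rw [if_neg (by omega), h0]; rfl
      · rw [if_pos h2, asg0, if_neg (by omega)]
    show r.s.val M _ = r.t.val M _
    rw [key r.s Finset.subset_union_left, key r.t Finset.subset_union_right, hy]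

theorem Rp.of_sat {p : ℕ → Prop} (r : Rp p) {n N : ℕ} (M : Model) (hM : IsEA M)
    (v : ℕ → M.D) (h0 : v 0 = M.num n) (h1 : v 1 = M.num N) (hs : r.F.sat M v) : p n := by
  rw [Rp.F, sat_exB] at hs
  obtain ⟨w, hw, hs⟩ := hs
  have hw' : ∀ j, ∃ y : ℕ, j < r.k → w j = M.num y := by
    intro j
    by_cases hj : j < r.k
    · have := hw j hj
      rw [h1] at this
      obtain ⟨k, _, hk⟩ := le_num hM _ _ this
      exact ⟨k, fun _ => hk⟩
    · exact ⟨0, fun h => absurd h hj⟩
  choose y hy using hw'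
  refine (r.hp n).2 ⟨y, ?_⟩
  have key : ∀ t : Term, t.vars ⊆ r.s.vars ∪ r.t.vars →
      t.val M (fun i => if 2 ≤ i ∧ i < r.k + 2 then w (i - 2) else v i) =
      M.num (t.nval (asg0 n y)) := by
    intro t ht
    refine val_num hM t _ _ fun i hi => ?_
    rcases r.hv i (ht hi) with rfl | h2
    · rw [if_neg (by omega), h0]; rfl
    · rw [if_pos h2, asg0, if_neg (by omega), hy _ (by omega)]
  have hs' : r.s.val M (fun i => if 2 ≤ i ∧ i < r.k + 2 then w (i - 2) else v i) =
    r.t.val M (fun i => if 2 ≤ i ∧ i < r.k + 2 then w (i - 2) else v i) := hs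
  rw [key r.s Finset.subset_union_left, key r.t Finset.subset_union_right] at hs'
  exact num_inj hM _ _ hs'

section
variable {p q : ℕ → Prop} (r : Rp p) (r' : Rp q)

/-- The Rosser formula. -/
def ros : Form := ex 1 (.and r.F (.neg r'.F))

/-- The Rosser sentences. -/
def rosS (n : ℕ) : Form := cl 0 ((ros r r').fv.sup id + 1) (asg 0 (numT n) (ros r r'))

theorem rosS_fv (n : ℕ) : (rosS r r' n).fv = ∅ := by
  rw [Finset.eq_empty_iff_forall_notMem]
  intro j hj
  obtain ⟨h1, h2⟩ := fv_cl _ _ _ _ hj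
  have h3 : j ∈ (ros r r').fv := by
    simp only [asg, Form.imp, Form.fv, Term.vars, vars_numT, Finset.union_empty,
      Finset.mem_erase, Finset.mem_union, Finset.mem_singleton] at h1
    rcases h1 with ⟨h4, h5 | h5⟩
    · exact absurd h5 h4
    · exact h5
  have h4 : j ≤ (ros r r').fv.sup id := Finset.le_sup (f := id) h3
  omega

theorem exB_syms : ∀ (c : ℕ) (ψ : Form), ψ.syms = ∅ → (exB c ψ).syms = ∅
  | 0, _, h => h
  | c + 1, ψ, h => by
    simp only [exB, ex, Form.syms, exB_syms c ψ h, Finset.union_empty]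

theorem rosS_syms (n : ℕ) : (rosS r r' n).syms = ∅ := by
  rw [rosS, syms_cl, syms_asg]
  simp only [ros, ex, Form.syms]
  rw [Rp.F, Rp.F, exB_syms _ _ rfl, exB_syms _ _ rfl]
  rfl

theorem rosS_AS (n : ℕ) : AS (rosS r r' n) := ⟨rosS_syms r r' n, rosS_fv r r' n⟩

theorem sat_rosS (M : Model) (n : ℕ) : M.Holds (rosS r r' n) ↔
    ∃ (v : ℕ → M.D), v 0 = M.num n ∧ (ros r r').sat M v ∧
      ∀ w : ℕ → M.D, w 0 = M.num n → (∀ i ∈ (ros r r').fv, i ≠ 0 → w i = M.zero) →
        (ros r r').sat M w := by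
  rw [holds_iff M _ (rosS_fv r r' n) (fun _ => M.zero), rosS, sat_cl,
    sat_asg _ _ _ _ _ (by simp [vars_numT]), val_numT]
  have h0 : (fun k => if 0 ≤ k ∧ k < 0 + ((ros r r').fv.sup id + 1) then M.zero
      else (fun _ => M.zero) k) = fun _ => M.zero := by
    funext k; split_ifs <;> rfl
  rw [h0]
  constructor
  · intro h
    refine ⟨_, update_self _ _ _, h, fun w hw0 hw => ?_⟩
    refine (Form.sat_congr M _ _ _ fun i hi => ?_).1 h
    by_cases hi0 : i = 0
    · subst hi0; rw [update_self, hw0]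
    · rw [update_of_ne hi0, hw i hi hi0]
  · rintro ⟨_, _, _, h⟩
    exact h _ (update_self _ _ _) fun i _ hi0 => update_of_ne hi0 _ _

theorem ros_true (n : ℕ) (hp : p n) (hq : ¬ q n) (M : Model) (hM : IsEA M) (v : ℕ → M.D)
    (h0 : v 0 = M.num n) : (ros r r').sat M v := by
  obtain ⟨N, hN⟩ := r.sat_of hp
  rw [ros, sat_ex]
  refine ⟨M.num N, ?_, fun h => hq ?_⟩
  · refine hN M hM _ ?_ ?_
    · rw [update_of_ne (by omega), h0]
    · rw [update_self]; exact num_le_self hM N
  · refine r'.of_sat M hM _ (n := n) (N := N) ?_ ?_ h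
    · rw [update_of_ne (by omega), h0]
    · rw [update_self]

theorem ros_false (n : ℕ) (hp : ¬ p n) (hq : q n) (M : Model) (hM : IsEA M) (v : ℕ → M.D)
    (h0 : v 0 = M.num n) : ¬ (ros r r').sat M v := by
  obtain ⟨N, hN⟩ := r'.sat_of hq
  rw [ros, sat_ex]
  rintro ⟨z, h1, h2⟩
  rcases le_total hM N z with h3 | h3
  · obtain ⟨k, _, rfl⟩ := le_num hM _ _ h3
    refine hp (r.of_sat M hM _ (n := n) (N := k) ?_ ?_ h1)
    · rw [update_of_ne (by omega), h0]
    · rw [update_self]
  · refine h2 (hN M hM _ ?_ ?_)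
    · rw [update_of_ne (by omega), h0]
    · rw [update_self]; exact h3

theorem rosS_true (n : ℕ) (hp : p n) (hq : ¬ q n) (M : Model) (hM : IsEA M) :
    M.Holds (rosS r r' n) := by
  rw [sat_rosS]
  refine ⟨fun i => if i = 0 then M.num n else M.zero, by simp, ?_, fun w hw _ => ?_⟩
  · exact ros_true r r' n hp hq M hM _ (by simp)
  · exact ros_true r r' n hp hq M hM _ hw

theorem rosS_false (n : ℕ) (hp : ¬ p n) (hq : q n) (M : Model) (hM : IsEA M) :
    ¬ M.Holds (rosS r r' n) := by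
  rw [sat_rosS]
  rintro ⟨v, h0, h1, _⟩
  exact ros_false r r' n hp hq M hM v h0 h1

end

/-! ## Primitive recursiveness -/

theorem p_neg {F : ℕ → Form} (h : Primrec fun n => cdF (F n)) :
    Primrec fun n => cdF (.neg (F n)) := p_fNand h h

theorem p_and {F G : ℕ → Form} (h : Primrec fun n => cdF (F n)) (h' : Primrec fun n => cdF (G n)) :
    Primrec fun n => cdF (.and (F n) (G n)) := p_fNand (p_fNand h h') (p_fNand h h')

theorem p_all (i : ℕ) {F : ℕ → Form} (h : Primrec fun n => cdF (F n)) :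
    Primrec fun n => cdF (.all i (F n)) := p_fAll (Primrec.const 0) (Primrec.const i) h

theorem p_asg (i : ℕ) {t : ℕ → Term} {F : ℕ → Form} (ht : Primrec fun n => cdT (t n))
    (h : Primrec fun n => cdF (F n)) : Primrec fun n => cdF (asg i (t n) (F n)) := by
  refine p_all i (p_neg (p_and ?_ (p_neg h)))
  exact p_fEq (Primrec.const _) ht

theorem p_numT : Primrec fun n => cdT (numT n) := by
  refine (Primrec.nat_rec₁ 0 (f := fun _ t : ℕ => tSucc t) ?_).of_eq fun n => ?_
  · exact p_tSucc Primrec.snd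
  · induction n with
    | zero => rfl
    | succ n ih =>
      show tSucc _ = tSucc (cdT (numT n))
      rw [← ih]

theorem p_cl (s : ℕ) : ∀ (c : ℕ) {F : ℕ → Form}, (Primrec fun n => cdF (F n)) →
    Primrec fun n => cdF (cl s c (F n))
  | 0, _, h => h
  | c + 1, _, h => p_asg (s + c) (Primrec.const _) (p_cl s c h)

theorem p_rosS {p q : ℕ → Prop} (r : Rp p) (r' : Rp q) : Primrec fun n => cdF (rosS r r' n) :=
  p_cl 0 _ (p_asg 0 p_numT (Primrec.const _))

/-! ## Recursively inseparable sets -/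

open Nat.Partrec (Code)

/-- `{n | φ_n(n) = c}`. -/
def Kc (c n : ℕ) : Prop := c ∈ Nat.Partrec.Code.eval (Denumerable.ofNat Nat.Partrec.Code n) n

theorem Kc_re (c : ℕ) : REPred (Kc c) := by
  have h1 : Partrec fun n : ℕ => Nat.Partrec.Code.eval (Denumerable.ofNat Nat.Partrec.Code n) n :=
    Nat.Partrec.Code.eval_part.comp (Computable.ofNat _) Computable.id
  have h2 : Partrec₂ fun (_ : ℕ) (y : ℕ) => (bif decide (y = c) then Part.some () else Part.none :
      Part Unit) := by
    refine Partrec.cond (c := fun p : ℕ × ℕ => decide (p.2 = c)) ?_ (Computable.const ()) Partrec.none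
    exact (Primrec.eq.comp Primrec.snd (Primrec.const c)).decide.to_comp
  refine (h1.bind h2).dom_re.of_eq fun n => ?_
  rw [Part.bind_dom, Kc]
  constructor
  · rintro ⟨h3, h4⟩
    by_cases h5 : ((Denumerable.ofNat Nat.Partrec.Code n).eval n).get h3 = c
    · rw [← h5]; exact Part.get_mem h3
    · exfalso
      simp [h5] at h4
  · intro h
    obtain ⟨h3, h4⟩ := h
    exact ⟨h3, by simp [h4]⟩

theorem Kc_disj (n : ℕ) : ¬ (Kc 0 n ∧ Kc 1 n) := by
  rintro ⟨h1, h2⟩
  exact absurd (Part.mem_unique h1 h2) (by norm_num)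

theorem insep (C : ℕ → Prop) (hC : ComputablePred C) (h0 : ∀ n, Kc 0 n → C n)
    (h1 : ∀ n, Kc 1 n → ¬ C n) : False := by
  obtain ⟨_, hC⟩ := hC
  have h2 : Computable fun n => bif decide (C n) then (1 : ℕ) else 0 :=
    Computable.cond hC (Computable.const 1) (Computable.const 0)
  obtain ⟨c, hc⟩ := Nat.Partrec.Code.exists_code.1 (Partrec.nat_iff.1 h2)
  have h3 : ∀ n, (bif decide (C n) then (1 : ℕ) else 0) ∈ c.eval n := by
    intro n
    rw [hc]
    exact Part.mem_some _
  have h4 := h3 (encode c)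
  by_cases h5 : C (encode c)
  · simp only [h5, decide_true, cond_true] at h4
    refine h1 (encode c) ?_ h5
    rw [Kc, Denumerable.ofNat_encode]; exact h4
  · simp only [h5, decide_false, cond_false] at h4
    refine h5 (h0 (encode c) ?_)
    rw [Kc, Denumerable.ofNat_encode]; exact h4

end Pool.Agent.K7.H50.TD
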